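import Mathlib

/-!
# Ramsey arrows, Ramsey equivalence, and the number `g(k)`

Definitions used in the statement of the results on problem MP_e8016c.
-/

namespace Pool.Agent.Lib.MP_e8016c

open SimpleGraph

/-- `Arrows G H`, usually written `G → H`: however the edges of `G` are coloured red and blue (here
`R ≤ G` is the graph formed by the red edges and `G \ R` the graph formed by the blue edges), there
is a monochromatic copy of `H`, i.e. `H` is contained, as a not necessarily induced subgraph, in
the red graph or in the blue graph. -/
def Arrows {V W : Type*} (G : SimpleGraph V) (H : SimpleGraph W) : Prop :=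
  ∀ R : SimpleGraph V, R ≤ G → (H ⊑ R ∨ H ⊑ G \ R)

/-- Two graphs are Ramsey-equivalent if exactly the same finite graphs arrow them. -/
def RamseyEquiv {W₁ W₂ : Type*} (H₁ : SimpleGraph W₁) (H₂ : SimpleGraph W₂) : Prop :=
  ∀ (V : Type) [Finite V] (G : SimpleGraph V), Arrows G H₁ ↔ Arrows G H₂

/-- The complete graph `K_k`. -/
abbrev K (k : ℕ) : SimpleGraph (Fin k) := completeGraph (Fin k)

/-- The star `K_{1,g}` with one centre and `g` leaves. -/
abbrev Star (g : ℕ) : SimpleGraph (Fin 1 ⊕ Fin g) := completeBipartiteGraph (Fin 1) (Fin g)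

/-- The vertex-disjoint union `K_k + K_{1,g}`. -/
abbrev KStar (k g : ℕ) : SimpleGraph (Fin k ⊕ (Fin 1 ⊕ Fin g)) := SimpleGraph.sum (K k) (Star g)

/-- The set of all `g` such that `K_k` and `K_k + K_{1,g}` are Ramsey-equivalent. -/
def goodStars (k : ℕ) : Set ℕ := {g : ℕ | RamseyEquiv (K k) (KStar k g)}

/-- The number `g(k)`: the supremum of the set `goodStars k`. (The result below asserts that it is
the greatest element of that set.) -/
noncomputable def gMax (k : ℕ) : ℕ := sSup (goodStars k)

end Pool.Agent.Lib.MP_e8016c
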