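import Mathlib
import Pool.Agent.Lib.MP_e8016c.Defs

/-!
# Basic facts on Ramsey arrows and Ramsey equivalence
-/

namespace Pool.Agent.Lib.MP_e8016c

open SimpleGraph

/-- A copy of `K_k` in `G` gives a clique of size `k`. -/
theorem K_isContained_iff {V : Type*} (G : SimpleGraph V) (k : ℕ) :
    K k ⊑ G ↔ ¬ G.CliqueFree k :=
  (not_cliqueFree_iff_top_isContained k).symm

theorem K_le_KStar (k g : ℕ) : K k ⊑ KStar k g :=
  ⟨(SimpleGraph.Embedding.sumInl (G := K k) (H := Star g)).toCopy⟩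

theorem arrows_of_isContained {V W₁ W₂ : Type*} {G : SimpleGraph V} {H₁ : SimpleGraph W₁}
    {H₂ : SimpleGraph W₂} (h : H₁ ⊑ H₂) (hG : Arrows G H₂) : Arrows G H₁ := by
  intro R hR
  rcases hG R hR with h' | h'
  · exact Or.inl (h.trans h')
  · exact Or.inr (h.trans h')

/-- If `g ≤ g'` then `K_k + K_{1,g}` is contained in `K_k + K_{1,g'}`. -/
theorem KStar_mono (k : ℕ) {g g' : ℕ} (h : g ≤ g') : KStar k g ⊑ KStar k g' := by
  classical
  let e : Fin k ⊕ (Fin 1 ⊕ Fin g) ↪ Fin k ⊕ (Fin 1 ⊕ Fin g') :=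
    Function.Embedding.sumMap (Function.Embedding.refl _)
      (Function.Embedding.sumMap (Function.Embedding.refl _) (Fin.castLEEmb h))
  refine ⟨⟨⟨e, ?_⟩, e.injective⟩⟩
  intro a b hab
  rcases a with a | a | a <;> rcases b with b | b | b <;> simp_all [e]

/-- Ramsey equivalence of `K_k` and `K_k + K_{1,g}` is inherited by smaller stars. -/
theorem ramseyEquiv_anti {k g g' : ℕ} (h : g ≤ g')
    (hE : RamseyEquiv (K k) (KStar k g')) : RamseyEquiv (K k) (KStar k g) := by
  intro V _ G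
  constructor
  · intro hG
    exact arrows_of_isContained (KStar_mono k h) ((hE V G).1 hG)
  · intro hG
    exact arrows_of_isContained (K_le_KStar k g) hG

end Pool.Agent.Lib.MP_e8016c
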