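import Mathlib

/-!
# Independent sets in degenerate relations
-/

namespace Pool.Agent.Lib.MP_e8016c

open Classical in
/-- If every nonempty subset `A'` of `A` contains an element related (in either direction) to at
most `D` other elements of `A'`, then `A` contains a large independent set. -/
theorem exists_indep {V : Type*} (r : V → V → Prop) (D : ℕ) :
    ∀ (q : ℕ) (A : Finset V),
      (∀ A' ⊆ A, A'.Nonempty → ∃ v ∈ A', (A'.filter (fun w => w ≠ v ∧ (r v w ∨ r w v))).card ≤ D) →
      (D + 1) * q < A.card + (D + 1) →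
      ∃ Q ⊆ A, Q.card = q ∧ ∀ a ∈ Q, ∀ b ∈ Q, a ≠ b → ¬ r a b := by
  intro q
  induction q with
  | zero =>
    intro A _ _
    exact ⟨∅, by simp, by simp, by simp⟩
  | succ q ih =>
    intro A hA hcard
    have hq : (D + 1) * q < A.card := by
      have : (D + 1) * (q + 1) = (D + 1) * q + (D + 1) := by ring
      omega
    have hne : A.Nonempty := by
      rw [← Finset.card_pos]; omega
    obtain ⟨v, hv, hvD⟩ := hA A (Finset.Subset.refl _) hne
    set B := A.filter (fun w => w ≠ v ∧ ¬ (r v w ∨ r w v)) with hB
    have hBA : B ⊆ A := Finset.filter_subset _ _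
    have hcover : A ⊆ insert v (B ∪ A.filter (fun w => w ≠ v ∧ (r v w ∨ r w v))) := by
      intro w hw
      by_cases h1 : w = v
      · simp [h1]
      · by_cases h2 : (r v w ∨ r w v)
        · simp only [Finset.mem_insert, Finset.mem_union, Finset.mem_filter]
          right; right; exact ⟨hw, h1, h2⟩
        · simp only [Finset.mem_insert, Finset.mem_union, Finset.mem_filter, hB]
          right; left; exact ⟨hw, h1, h2⟩
    have hcardB : A.card ≤ B.card + (D + 1) := by
      calc A.card ≤ _ := Finset.card_le_card hcover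
        _ ≤ (B ∪ A.filter (fun w => w ≠ v ∧ (r v w ∨ r w v))).card + 1 :=
            Finset.card_insert_le _ _
        _ ≤ B.card + (A.filter (fun w => w ≠ v ∧ (r v w ∨ r w v))).card + 1 := by
            gcongr; exact Finset.card_union_le _ _
        _ ≤ B.card + (D + 1) := by omega
    obtain ⟨Q, hQB, hQc, hQ⟩ := ih B (fun A' hA' => hA A' (hA'.trans hBA)) (by omega)
    have hvQ : v ∉ Q := by
      intro h
      have := hQB h
      rw [hB, Finset.mem_filter] at this
      exact this.2.1 rfl
    refine ⟨insert v Q, ?_, ?_, ?_⟩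
    · intro w hw
      rcases Finset.mem_insert.1 hw with rfl | hw
      · exact hv
      · exact hBA (hQB hw)
    · rw [Finset.card_insert_of_notMem hvQ, hQc]
    · intro a ha b hb hab
      rcases Finset.mem_insert.1 ha with rfl | ha' <;> rcases Finset.mem_insert.1 hb with rfl | hb'
      · exact absurd rfl hab
      · have := hQB hb'
        rw [hB, Finset.mem_filter] at this
        exact fun h => this.2.2 (Or.inl h)
      · have := hQB ha'
        rw [hB, Finset.mem_filter] at this
        exact fun h => this.2.2 (Or.inr h)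
      · exact hQ a ha' b hb' hab

open Classical in
/-- A finite digraph with out-degrees at most `δ` has a large independent set. -/
theorem exists_indep_of_outdegree {V : Type*} (r : V → V → Prop) (δ q : ℕ) (A : Finset V)
    (hout : ∀ a ∈ A, (A.filter (fun b => b ≠ a ∧ r a b)).card ≤ δ)
    (hcard : (2 * δ + 1) * q < A.card + (2 * δ + 1)) :
    ∃ Q ⊆ A, Q.card = q ∧ ∀ a ∈ Q, ∀ b ∈ Q, a ≠ b → ¬ r a b := by
  apply exists_indep r (2 * δ) q A _ hcard
  intro A' hA' hne
  have hout' : ∀ a ∈ A', (A'.filter (fun b => b ≠ a ∧ r a b)).card ≤ δ := by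
    intro a ha
    refine le_trans (Finset.card_le_card ?_) (hout a (hA' ha))
    exact Finset.filter_subset_filter _ hA'
  -- double counting
  have hsum : ∑ v ∈ A', (A'.filter (fun w => w ≠ v ∧ r w v)).card ≤ ∑ v ∈ A', δ := by
    calc ∑ v ∈ A', (A'.filter (fun w => w ≠ v ∧ r w v)).card
        = ∑ w ∈ A', (A'.filter (fun v => v ≠ w ∧ r w v)).card := by
          simp only [Finset.card_filter]
          rw [Finset.sum_comm]
          refine Finset.sum_congr rfl fun a _ => Finset.sum_congr rfl fun b _ => ?_
          simp only [ne_comm]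
      _ ≤ ∑ v ∈ A', δ := Finset.sum_le_sum hout'
  obtain ⟨v, hv, hvle⟩ := Finset.exists_le_of_sum_le hne hsum
  refine ⟨v, hv, ?_⟩
  calc (A'.filter (fun w => w ≠ v ∧ (r v w ∨ r w v))).card
      ≤ (A'.filter (fun w => w ≠ v ∧ r v w) ∪ A'.filter (fun w => w ≠ v ∧ r w v)).card := by
        apply Finset.card_le_card
        intro w hw
        rw [Finset.mem_filter] at hw
        rw [Finset.mem_union, Finset.mem_filter, Finset.mem_filter]
        tauto
    _ ≤ _ := Finset.card_union_le _ _
    _ ≤ δ + δ := Nat.add_le_add (hout' v hv) hvle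
    _ = 2 * δ := by ring

end Pool.Agent.Lib.MP_e8016c
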