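import Mathlib

/-!
# Elementary uniform probability on finite sets of functions
-/

namespace Pool.Agent.Lib.MP_e8016c

open Finset

section pr

variable {Ω : Type*} [Fintype Ω]

open Classical in
/-- Uniform probability of an event. -/
noncomputable def pr (A : Ω → Prop) : ℝ :=
  ((Finset.univ.filter A).card : ℝ) / Fintype.card Ω

theorem pr_eq (A : Ω → Prop) [DecidablePred A] :
    pr A = ((Finset.univ.filter A).card : ℝ) / Fintype.card Ω := by
  unfold pr
  congr!

theorem pr_nonneg (A : Ω → Prop) : 0 ≤ pr A := by unfold pr; positivity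

theorem pr_mono {A B : Ω → Prop} (h : ∀ ω, A ω → B ω) : pr A ≤ pr B := by
  classical
  unfold pr
  gcongr with ω
  exact h ω

theorem pr_false : pr (fun _ : Ω => False) = 0 := by simp [pr]

theorem pr_or (A B : Ω → Prop) : pr (fun ω => A ω ∨ B ω) ≤ pr A + pr B := by
  classical
  unfold pr
  rw [← add_div]
  gcongr
  rw [← Nat.cast_add]
  gcongr
  calc _ = (Finset.univ.filter A ∪ Finset.univ.filter B).card := by
        congr 1; ext ω; simp
    _ ≤ _ := Finset.card_union_le _ _

theorem pr_exists_mem {ι : Type*} (I : Finset ι) (A : ι → Ω → Prop) (b : ℝ)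
    (h : ∀ i ∈ I, pr (A i) ≤ b) : pr (fun ω => ∃ i ∈ I, A i ω) ≤ I.card * b := by
  classical
  induction I using Finset.induction_on with
  | empty => simp [pr]
  | insert a s ha ih =>
    have h1 : pr (fun ω => ∃ i ∈ insert a s, A i ω) ≤
        pr (fun ω => A a ω ∨ ∃ i ∈ s, A i ω) := by
      apply pr_mono
      rintro ω ⟨i, hi, hA⟩
      rcases Finset.mem_insert.1 hi with rfl | hi
      · exact Or.inl hA
      · exact Or.inr ⟨i, hi, hA⟩
    have h2 := pr_or (A a) (fun ω => ∃ i ∈ s, A i ω)
    have h3 := ih (fun i hi => h i (Finset.mem_insert_of_mem hi))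
    have h4 := h a (Finset.mem_insert_self _ _)
    rw [Finset.card_insert_of_notMem ha]
    push_cast
    linarith

theorem exists_not_of_pr_lt_one [Nonempty Ω] {A : Ω → Prop} (h : pr A < 1) : ∃ ω, ¬ A ω := by
  classical
  by_contra hcon
  push Not at hcon
  have : (Finset.univ.filter A) = Finset.univ := by
    ext ω; simp [hcon ω]
  unfold pr at h
  rw [this, Finset.card_univ, div_self] at h
  · exact lt_irrefl _ h
  · exact_mod_cast Fintype.card_ne_zero

end pr

section functions

variable {α : Type*} [Fintype α] [DecidableEq α] {P : ℕ} [NeZero P]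

theorem pr_forall_mem (S : α → Finset (Fin P)) :
    pr (fun f : α → Fin P => ∀ e, f e ∈ S e) = ∏ e, ((S e).card : ℝ) / P := by
  have h1 : (Finset.univ.filter (fun f : α → Fin P => ∀ e, f e ∈ S e)) = Fintype.piFinset S := by
    ext f; simp [Fintype.mem_piFinset]
  have h3 : Fintype.card (α → Fin P) = ∏ _e : α, P := by simp
  rw [pr_eq, h1, Fintype.card_piFinset, h3]
  push_cast
  rw [Finset.prod_div_distrib]

/-- The probability that all values on `E` are `0`. -/
theorem pr_zeroOn (E : Finset α) :
    pr (fun f : α → Fin P => ∀ e ∈ E, f e = 0) = (1 / (P : ℝ)) ^ E.card := by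
  classical
  have hP : (P : ℝ) ≠ 0 := by exact_mod_cast NeZero.ne P
  have h := pr_forall_mem (P := P) (fun e : α => if e ∈ E then ({0} : Finset (Fin P)) else univ)
  have h1 : (fun f : α → Fin P => ∀ e, f e ∈ (if e ∈ E then ({0} : Finset (Fin P)) else univ)) =
      (fun f : α → Fin P => ∀ e ∈ E, f e = 0) := by
    funext f
    apply propext
    constructor
    · intro hf e he
      have := hf e
      simpa [he] using this
    · intro hf e
      by_cases he : e ∈ E
      · simp [he, hf e he]
      · simp [he]
  rw [h1] at h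
  rw [h]
  have h2 : ∀ e : α, (((if e ∈ E then ({0} : Finset (Fin P)) else univ).card : ℕ) : ℝ) / P =
      if e ∈ E then 1 / (P : ℝ) else 1 := by
    intro e
    by_cases he : e ∈ E
    · simp [he]
    · simp [he]
  simp_rw [h2]
  rw [Finset.prod_ite_mem, Finset.univ_inter, Finset.prod_const]

/-- The probability that no value on `E` is `0`. -/
theorem pr_nonzeroOn (E : Finset α) :
    pr (fun f : α → Fin P => ∀ e ∈ E, f e ≠ 0) = (1 - 1 / (P : ℝ)) ^ E.card := by
  classical
  have hP : (P : ℝ) ≠ 0 := by exact_mod_cast NeZero.ne P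
  have hP1 : 1 ≤ P := Nat.one_le_iff_ne_zero.2 (NeZero.ne P)
  have h := pr_forall_mem (P := P)
    (fun e : α => if e ∈ E then (univ.erase (0 : Fin P)) else univ)
  have h1 : (fun f : α → Fin P => ∀ e, f e ∈ (if e ∈ E then (univ.erase (0 : Fin P)) else univ)) =
      (fun f : α → Fin P => ∀ e ∈ E, f e ≠ 0) := by
    funext f
    apply propext
    constructor
    · intro hf e he
      have := hf e
      simpa [he] using this
    · intro hf e
      by_cases he : e ∈ E
      · simp [he, hf e he]
      · simp [he]
  rw [h1] at h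
  rw [h]
  have h2 : ∀ e : α, (((if e ∈ E then (univ.erase (0 : Fin P)) else univ).card : ℕ) : ℝ) / P =
      if e ∈ E then (1 - 1 / (P : ℝ)) else 1 := by
    intro e
    by_cases he : e ∈ E
    · simp only [he, if_true, Finset.card_erase_of_mem (Finset.mem_univ _), Finset.card_univ,
        Fintype.card_fin]
      rw [Nat.cast_sub hP1]
      field_simp
      simp
    · simp [he]
  simp_rw [h2]
  rw [Finset.prod_ite_mem, Finset.univ_inter, Finset.prod_const]

end functions

end Pool.Agent.Lib.MP_e8016c
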