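import Mathlib
import Pool.Agent.Lib.MP_e8016c.Prob

/-!
# Existence of the auxiliary label graph
-/

namespace Pool.Agent.Lib.MP_e8016c

open Finset

variable {m P : ℕ} [NeZero P]

/-- The sample space: functions from unordered pairs of labels to `Fin P`; the pair `e` is an edge
iff `f e = 0`. -/
abbrev Samp (m P : ℕ) : Type := Sym2 (Fin m) → Fin P

/-- Many vertices `z ∈ W` have a neighbour in `S` and a neighbour in `S'`. -/
def EvCo (t Z : ℕ) (f : Samp m P) : Prop :=
  ∃ S ∈ powersetCard t (univ : Finset (Fin m)), ∃ S' ∈ powersetCard t (univ : Finset (Fin m)),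
    ∃ W ∈ powersetCard Z (univ : Finset (Fin m)), Disjoint S S' ∧ Disjoint W S ∧ Disjoint W S' ∧
      ∀ z ∈ W, (∃ a ∈ S, f s(z, a) = 0) ∧ (∃ c ∈ S', f s(z, c) = 0)

theorem card_powersetCard_le (t : ℕ) :
    ((powersetCard t (univ : Finset (Fin m))).card : ℝ) ≤ (m : ℝ) ^ t := by
  rw [card_powersetCard, card_univ, Fintype.card_fin]
  exact_mod_cast Nat.choose_le_pow m t

theorem card_choice (S W : Finset (Fin m)) :
    (Fintype.piFinset (fun z : Fin m => if z ∈ W then S else {z})).card = S.card ^ W.card := by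
  classical
  rw [Fintype.card_piFinset]
  have : ∀ z : Fin m, (if z ∈ W then S else ({z} : Finset (Fin m))).card =
      if z ∈ W then S.card else 1 := by
    intro z; split_ifs <;> simp
  simp_rw [this]
  rw [Finset.prod_ite_mem, Finset.univ_inter, Finset.prod_const]

theorem pr_EvCo (t Z : ℕ) :
    pr (EvCo (m := m) (P := P) t Z) ≤
      (m : ℝ) ^ t * ((m : ℝ) ^ t * ((m : ℝ) ^ Z * ((t : ℝ) ^ Z * ((t : ℝ) ^ Z *
        (1 / (P : ℝ)) ^ (2 * Z))))) := by
  classical
  have hP0 : (0 : ℝ) ≤ 1 / (P : ℝ) := by positivity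
  -- rewrite the event as a union over `S, S', W, φ, ψ`
  have hmono : ∀ f : Samp m P, EvCo t Z f →
      ∃ S ∈ powersetCard t (univ : Finset (Fin m)), ∃ S' ∈ powersetCard t (univ : Finset (Fin m)),
      ∃ W ∈ powersetCard Z (univ : Finset (Fin m)),
      ∃ φ ∈ Fintype.piFinset (fun z : Fin m => if z ∈ W then S else {z}),
      ∃ ψ ∈ Fintype.piFinset (fun z : Fin m => if z ∈ W then S' else {z}),
        (Disjoint S S' ∧ Disjoint W S ∧ Disjoint W S') ∧
        ∀ e ∈ (W.image (fun z => s(z, φ z)) ∪ W.image (fun z => s(z, ψ z))), f e = 0 := by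
    rintro f ⟨S, hS, S', hS', W, hW, h1, h2, h3, hz⟩
    refine ⟨S, hS, S', hS', W, hW, ?_⟩
    have hzφ : ∀ z ∈ W, ∃ a, a ∈ S ∧ f s(z, a) = 0 := fun z hz' => (hz z hz').1
    have hzψ : ∀ z ∈ W, ∃ a, a ∈ S' ∧ f s(z, a) = 0 := fun z hz' => (hz z hz').2
    have hz2φ : ∀ z : Fin m, ∃ a : Fin m, z ∈ W → a ∈ S ∧ f s(z, a) = 0 := by
      intro z
      by_cases h : z ∈ W
      · obtain ⟨a, ha⟩ := hzφ z h; exact ⟨a, fun _ => ha⟩
      · exact ⟨z, fun h' => absurd h' h⟩
    have hz2ψ : ∀ z : Fin m, ∃ a : Fin m, z ∈ W → a ∈ S' ∧ f s(z, a) = 0 := by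
      intro z
      by_cases h : z ∈ W
      · obtain ⟨a, ha⟩ := hzψ z h; exact ⟨a, fun _ => ha⟩
      · exact ⟨z, fun h' => absurd h' h⟩
    choose φ hφ using hz2φ
    choose ψ hψ using hz2ψ
    refine ⟨fun z => if z ∈ W then φ z else z, ?_, fun z => if z ∈ W then ψ z else z, ?_,
      ⟨h1, h2, h3⟩, ?_⟩
    · rw [Fintype.mem_piFinset]
      intro z
      by_cases hz : z ∈ W
      · simp only [hz, if_true]; exact (hφ z hz).1
      · simp [hz]
    · rw [Fintype.mem_piFinset]
      intro z
      by_cases hz : z ∈ W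
      · simp only [hz, if_true]; exact (hψ z hz).1
      · simp [hz]
    · intro e he
      rw [mem_union, mem_image, mem_image] at he
      rcases he with ⟨z, hz, rfl⟩ | ⟨z, hz, rfl⟩
      · simp only [hz, if_true]; exact (hφ z hz).2
      · simp only [hz, if_true]; exact (hψ z hz).2
  refine (pr_mono hmono).trans ?_
  have step : ∀ (I : Finset (Finset (Fin m))) (n : ℕ) (A : Finset (Fin m) → Samp m P → Prop)
      (b : ℝ), 0 ≤ b → (I.card : ℝ) ≤ (m : ℝ) ^ n → (∀ i ∈ I, pr (A i) ≤ b) →
      pr (fun ω => ∃ i ∈ I, A i ω) ≤ (m : ℝ) ^ n * b := by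
    intro I n A b hb hI hA
    exact (pr_exists_mem I A b hA).trans (mul_le_mul_of_nonneg_right hI hb)
  refine step _ t _ _ (by positivity) (card_powersetCard_le t) fun S hS => ?_
  refine step _ t _ _ (by positivity) (card_powersetCard_le t) fun S' hS' => ?_
  refine step _ Z _ _ (by positivity) (card_powersetCard_le Z) fun W hW => ?_
  rw [mem_powersetCard] at hS hS' hW
  have hcS : ((Fintype.piFinset (fun z : Fin m => if z ∈ W then S else {z})).card : ℝ) =
      (t : ℝ) ^ Z := by rw [card_choice, hS.2, hW.2]; push_cast; rfl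
  have hcS' : ((Fintype.piFinset (fun z : Fin m => if z ∈ W then S' else {z})).card : ℝ) =
      (t : ℝ) ^ Z := by rw [card_choice, hS'.2, hW.2]; push_cast; rfl
  rw [← hcS]
  refine pr_exists_mem _ _ _ fun φ hφ => ?_
  rw [hcS, ← hcS']
  refine pr_exists_mem _ _ _ fun ψ hψ => ?_
  by_cases hdis : Disjoint S S' ∧ Disjoint W S ∧ Disjoint W S'
  · obtain ⟨h1, h2, h3⟩ := hdis
    rw [Fintype.mem_piFinset] at hφ hψ
    have hφS : ∀ z ∈ W, φ z ∈ S := by
      intro z hz; have := hφ z; simpa [hz] using this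
    have hψS : ∀ z ∈ W, ψ z ∈ S' := by
      intro z hz; have := hψ z; simpa [hz] using this
    have hcard : (W.image (fun z => s(z, φ z)) ∪ W.image (fun z => s(z, ψ z))).card = 2 * Z := by
      rw [card_union_of_disjoint, card_image_of_injOn, card_image_of_injOn, hW.2]
      · ring
      · intro z hz z' hz' h
        simp only [Sym2.eq_iff] at h
        rcases h with h | h
        · exact h.1
        · exfalso
          have : z ∈ S' := by rw [h.1]; exact hψS z' hz'
          exact (Finset.disjoint_left.1 h3 hz) this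
      · intro z hz z' hz' h
        simp only [Sym2.eq_iff] at h
        rcases h with h | h
        · exact h.1
        · exfalso
          have : z ∈ S := by rw [h.1]; exact hφS z' hz'
          exact (Finset.disjoint_left.1 h2 hz) this
      · rw [Finset.disjoint_left]
        intro e he he'
        obtain ⟨z, hz, rfl⟩ := mem_image.1 he
        obtain ⟨z', hz', h⟩ := mem_image.1 he'
        rw [Sym2.eq_iff] at h
        rcases h with h | h
        · have h4 : φ z ∈ S' := by rw [← h.2]; exact hψS z' hz'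
          exact (Finset.disjoint_left.1 h1 (hφS z hz)) h4
        · have h4 : z ∈ S' := by rw [← h.2]; exact hψS z' hz'
          exact (Finset.disjoint_left.1 h3 hz) h4
    rw [← hcard, ← pr_zeroOn]
    exact pr_mono fun f hf => hf.2
  · have : pr (fun ω : Samp m P => (Disjoint S S' ∧ Disjoint W S ∧ Disjoint W S') ∧
        ∀ e ∈ (W.image (fun z => s(z, φ z)) ∪ W.image (fun z => s(z, ψ z))), ω e = 0) ≤
        pr (fun _ : Samp m P => False) := pr_mono fun f hf => hdis hf.1
    rw [pr_false] at this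
    exact this.trans (by positivity)

/-- Some vertex `a` has at least `D` neighbours. -/
def EvDeg (D : ℕ) (f : Samp m P) : Prop :=
  ∃ a ∈ (univ : Finset (Fin m)), ∃ W ∈ powersetCard D (univ : Finset (Fin m)), a ∉ W ∧
    ∀ w ∈ W, f s(a, w) = 0

theorem pr_EvDeg (D : ℕ) :
    pr (EvDeg (m := m) (P := P) D) ≤ (m : ℝ) * ((m.choose D : ℝ) * (1 / (P : ℝ)) ^ D) := by
  classical
  have h1 := pr_exists_mem (Ω := Samp m P) (univ : Finset (Fin m))
    (fun a f => ∃ W ∈ powersetCard D (univ : Finset (Fin m)), a ∉ W ∧ ∀ w ∈ W, f s(a, w) = 0)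
    ((m.choose D : ℝ) * (1 / (P : ℝ)) ^ D) ?_
  · rw [card_univ, Fintype.card_fin] at h1
    exact h1
  intro a _
  have hc : ((powersetCard D (univ : Finset (Fin m))).card : ℝ) = (m.choose D : ℝ) := by
    rw [card_powersetCard, card_univ, Fintype.card_fin]
  rw [← hc]
  refine pr_exists_mem _ _ _ fun W hW => ?_
  rw [mem_powersetCard] at hW
  by_cases haW : a ∈ W
  · have : pr (fun ω : Samp m P => a ∉ W ∧ ∀ w ∈ W, ω s(a, w) = 0) ≤
        pr (fun _ : Samp m P => False) := pr_mono fun f hf => hf.1 haW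
    rw [pr_false] at this
    exact this.trans (by positivity)
  · have hcard : (W.image (fun w => s(a, w))).card = D := by
      rw [card_image_of_injOn, hW.2]
      intro z hz z' hz' h
      simp only [Sym2.eq_iff] at h
      rcases h with h | h
      · exact h.2
      · rw [h.2, ← h.1]
    rw [← hcard, ← pr_zeroOn]
    refine pr_mono fun f hf e he => ?_
    obtain ⟨w, hw, rfl⟩ := mem_image.1 he
    exact hf.2 w hw

/-- Some set of size `β` spans no edge. -/
def EvInd (β : ℕ) (f : Samp m P) : Prop :=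
  ∃ A ∈ powersetCard β (univ : Finset (Fin m)), ∀ e ∈ (A.offDiag.image Sym2.mk.uncurry), f e ≠ 0

theorem pr_EvInd (β : ℕ) :
    pr (EvInd (m := m) (P := P) β) ≤ (m : ℝ) ^ β * (1 - 1 / (P : ℝ)) ^ (β.choose 2) := by
  classical
  have hP1 : (1 : ℝ) ≤ P := by exact_mod_cast Nat.one_le_iff_ne_zero.2 (NeZero.ne P)
  have h0 : (0 : ℝ) ≤ 1 - 1 / (P : ℝ) := by
    rw [sub_nonneg, div_le_one (by linarith)]; exact hP1
  refine (pr_exists_mem (Ω := Samp m P) (powersetCard β (univ : Finset (Fin m)))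
    (fun A f => ∀ e ∈ (A.offDiag.image Sym2.mk.uncurry), f e ≠ 0)
    ((1 - 1 / (P : ℝ)) ^ (β.choose 2)) ?_).trans ?_
  · intro A hA
    rw [mem_powersetCard] at hA
    have : (A.offDiag.image Sym2.mk.uncurry).card = β.choose 2 := by
      rw [Sym2.card_image_offDiag, hA.2]
    rw [pr_nonzeroOn, this]
  · exact mul_le_mul_of_nonneg_right (card_powersetCard_le β) (by positivity)

end Pool.Agent.Lib.MP_e8016c
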