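import Mathlib
import Pool.Agent.Lib.MP_e8016c.RandomGraph

/-!
# The label graph: numerical estimates and existence
-/

namespace Pool.Agent.Lib.MP_e8016c

open Finset

theorem num_co (ℓ t t' : ℕ) (ht' : t' ≤ t) (ht : 1 ≤ t) :
    ((4 ^ ℓ : ℕ) : ℝ) ^ t' * (((4 ^ ℓ : ℕ) : ℝ) ^ t' * (((4 ^ ℓ : ℕ) : ℝ) ^ (2 * ℓ * t' + 2) *
      ((t' : ℝ) ^ (2 * ℓ * t' + 2) * ((t' : ℝ) ^ (2 * ℓ * t' + 2) *
        (1 / ((2 ^ (ℓ + 1) * t : ℕ) : ℝ)) ^ (2 * (2 * ℓ * t' + 2)))))) ≤ 1 / 16 := by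
  set Z := 2 * ℓ * t' + 2 with hZ
  have htR : (1 : ℝ) ≤ t := by exact_mod_cast ht
  have ht'R : (t' : ℝ) ≤ t := by exact_mod_cast ht'
  have ht'0 : (0 : ℝ) ≤ t' := by positivity
  have h1 : ((4 ^ ℓ : ℕ) : ℝ) * (t' : ℝ) * (t' : ℝ) * (1 / ((2 ^ (ℓ + 1) * t : ℕ) : ℝ)) ^ 2 ≤
      1 / 4 := by
    push_cast
    have h4 : (4 : ℝ) ^ ℓ = 2 ^ ℓ * 2 ^ ℓ := by
      rw [← mul_pow]; norm_num
    have h5 : (1 / ((2 : ℝ) ^ (ℓ + 1) * t)) ^ 2 = (4 * ((2 : ℝ) ^ ℓ * 2 ^ ℓ) * (t * t))⁻¹ := by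
      rw [pow_succ, one_div, inv_pow]; ring
    rw [h4, h5, ← div_eq_mul_inv, div_le_iff₀ (by positivity)]
    have h3 : (t' : ℝ) * t' ≤ t * t := mul_le_mul ht'R ht'R ht'0 (by linarith)
    have h6 := mul_le_mul_of_nonneg_left h3 (by positivity : (0 : ℝ) ≤ 2 ^ ℓ * 2 ^ ℓ)
    linarith
  calc ((4 ^ ℓ : ℕ) : ℝ) ^ t' * (((4 ^ ℓ : ℕ) : ℝ) ^ t' * (((4 ^ ℓ : ℕ) : ℝ) ^ Z *
      ((t' : ℝ) ^ Z * ((t' : ℝ) ^ Z * (1 / ((2 ^ (ℓ + 1) * t : ℕ) : ℝ)) ^ (2 * Z)))))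
      = ((4 ^ ℓ : ℕ) : ℝ) ^ (2 * t') *
        (((4 ^ ℓ : ℕ) : ℝ) * (t' : ℝ) * (t' : ℝ) *
          (1 / ((2 ^ (ℓ + 1) * t : ℕ) : ℝ)) ^ 2) ^ Z := by
        rw [mul_pow, mul_pow, mul_pow, ← pow_mul (1 / _) 2 Z]; ring
    _ ≤ ((4 ^ ℓ : ℕ) : ℝ) ^ (2 * t') * (1 / 4) ^ Z := by
        gcongr
    _ = 1 / 16 := by
        rw [hZ, pow_add]
        push_cast
        rw [← pow_mul, show ℓ * (2 * t') = 2 * ℓ * t' by ring, one_div, inv_pow]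
        field_simp
        norm_num

theorem num_deg (ℓ t : ℕ) (ht : 1 ≤ t) :
    ((4 ^ ℓ : ℕ) : ℝ) * (((4 ^ ℓ).choose (2 ^ (ℓ + 2)) : ℝ) *
      (1 / ((2 ^ (ℓ + 1) * t : ℕ) : ℝ)) ^ (2 ^ (ℓ + 2))) ≤ 1 / 16 := by
  set D := 2 ^ (ℓ + 2) with hD
  have htR : (1 : ℝ) ≤ t := by exact_mod_cast ht
  have hDR : (D : ℝ) = 4 * 2 ^ ℓ := by rw [hD]; push_cast; rw [pow_add]; ring
  have hD0 : (0 : ℝ) < D := by rw [hDR]; positivity
  -- `C(m, D) ≤ m^D / D!`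
  have h1 : ((4 ^ ℓ).choose D : ℝ) ≤ ((4 ^ ℓ : ℕ) : ℝ) ^ D / (D.factorial : ℝ) :=
    Nat.choose_le_pow_div D (4 ^ ℓ)
  -- `m / P ≤ D / 8`
  have h2 : ((4 ^ ℓ : ℕ) : ℝ) * (1 / ((2 ^ (ℓ + 1) * t : ℕ) : ℝ)) ≤ D / 8 := by
    push_cast
    have h4 : (4 : ℝ) ^ ℓ = 2 ^ ℓ * 2 ^ ℓ := by
      rw [← mul_pow]; norm_num
    rw [h4, pow_succ, hDR, mul_one_div, div_le_iff₀ (by positivity)]
    have h2 : (0 : ℝ) < 2 ^ ℓ := by positivity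
    nlinarith [mul_le_mul_of_nonneg_left htR (by positivity : (0 : ℝ) ≤ 2 ^ ℓ * 2 ^ ℓ)]
  -- `D^D / D! ≤ 3^D`
  have h3 : (D : ℝ) ^ D / (D.factorial : ℝ) ≤ 3 ^ D := by
    refine (Real.pow_div_factorial_le_exp (D : ℝ) hD0.le D).trans ?_
    rw [← Real.exp_one_pow]
    have : Real.exp 1 ≤ 3 := by
      have := Real.exp_one_lt_d9
      linarith
    exact pow_le_pow_left₀ (Real.exp_pos 1).le this D
  have h5 : (((4 ^ ℓ).choose D : ℝ) * (1 / ((2 ^ (ℓ + 1) * t : ℕ) : ℝ)) ^ D) ≤ (1 / 2) ^ D := by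
    calc (((4 ^ ℓ).choose D : ℝ) * (1 / ((2 ^ (ℓ + 1) * t : ℕ) : ℝ)) ^ D)
        ≤ (((4 ^ ℓ : ℕ) : ℝ) ^ D / (D.factorial : ℝ)) * (1 / ((2 ^ (ℓ + 1) * t : ℕ) : ℝ)) ^ D := by
          gcongr
      _ = (((4 ^ ℓ : ℕ) : ℝ) * (1 / ((2 ^ (ℓ + 1) * t : ℕ) : ℝ))) ^ D / (D.factorial : ℝ) := by
          rw [mul_pow]; ring
      _ ≤ ((D : ℝ) / 8) ^ D / (D.factorial : ℝ) := by
          gcongr
      _ = (1 / 8) ^ D * ((D : ℝ) ^ D / (D.factorial : ℝ)) := by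
          rw [div_pow, div_pow, one_pow]; ring
      _ ≤ (1 / 8) ^ D * 3 ^ D := by gcongr
      _ = (3 / 8) ^ D := by rw [← mul_pow]; norm_num
      _ ≤ (1 / 2) ^ D := by
          apply pow_le_pow_left₀ <;> norm_num
  calc ((4 ^ ℓ : ℕ) : ℝ) * (((4 ^ ℓ).choose D : ℝ) *
      (1 / ((2 ^ (ℓ + 1) * t : ℕ) : ℝ)) ^ D) ≤ ((4 ^ ℓ : ℕ) : ℝ) * (1 / 2) ^ D := by gcongr
    _ ≤ ((4 ^ ℓ : ℕ) : ℝ) * (1 / 2) ^ (2 * ℓ + 4) := by
        have : 2 * ℓ + 4 ≤ D := by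
          have h6 : ℓ + 2 < 2 ^ (ℓ + 2) := Nat.lt_two_pow_self
          have h7 : ∀ n : ℕ, 2 * (n + 2) ≤ 2 ^ (n + 2) := by
            intro n
            induction n with
            | zero => norm_num
            | succ n ih => rw [pow_succ]; omega
          have := h7 ℓ
          omega
        have h8 : ((1 : ℝ) / 2) ^ D ≤ (1 / 2) ^ (2 * ℓ + 4) :=
          pow_le_pow_of_le_one (by norm_num) (by norm_num) this
        gcongr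
    _ = 1 / 16 := by
        push_cast
        rw [pow_add, pow_mul]
        have : ((1 : ℝ) / 2) ^ 2 = 1 / 4 := by norm_num
        rw [this, one_div, inv_pow]
        field_simp
        norm_num

theorem num_ind (ℓ P : ℕ) (hP : 1 ≤ P) :
    ((4 ^ ℓ : ℕ) : ℝ) ^ (4 * P * (ℓ + 1) + 1) *
      (1 - 1 / (P : ℝ)) ^ ((4 * P * (ℓ + 1) + 1).choose 2) ≤ 1 / 16 := by
  set β := 4 * P * (ℓ + 1) + 1 with hβ
  have hPR : (1 : ℝ) ≤ P := by exact_mod_cast hP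
  have h0 : (0 : ℝ) ≤ 1 - 1 / (P : ℝ) := by
    rw [sub_nonneg, div_le_one (by linarith)]; exact hPR
  have hchoose : β.choose 2 = P * (2 * (ℓ + 1) * β) := by
    rw [Nat.choose_two_right, hβ]
    have : 4 * P * (ℓ + 1) + 1 - 1 = 2 * (2 * P * (ℓ + 1)) := by
      rw [Nat.add_sub_cancel]; ring
    rw [this]
    rw [show (4 * P * (ℓ + 1) + 1) * (2 * (2 * P * (ℓ + 1))) =
      2 * ((4 * P * (ℓ + 1) + 1) * (2 * P * (ℓ + 1))) by ring, Nat.mul_div_cancel_left _ (by norm_num)]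
    ring
  have h1 : (1 - 1 / (P : ℝ)) ^ P ≤ 1 / 2 := by
    have h2 : (1 - 1 / (P : ℝ)) ≤ Real.exp (-(1 / (P : ℝ))) := by
      have := Real.add_one_le_exp (-(1 / (P : ℝ)))
      linarith
    calc (1 - 1 / (P : ℝ)) ^ P ≤ (Real.exp (-(1 / (P : ℝ)))) ^ P := pow_le_pow_left₀ h0 h2 P
      _ = Real.exp (-1) := by
          rw [← Real.exp_nat_mul]
          congr 1
          field_simp
      _ ≤ 1 / 2 := by
          rw [Real.exp_neg, one_div]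
          apply inv_anti₀ (by norm_num)
          have := Real.add_one_le_exp (1 : ℝ)
          linarith
  rw [hchoose, pow_mul]
  calc ((4 ^ ℓ : ℕ) : ℝ) ^ β * ((1 - 1 / (P : ℝ)) ^ P) ^ (2 * (ℓ + 1) * β)
      ≤ ((4 ^ ℓ : ℕ) : ℝ) ^ β * (1 / 2) ^ (2 * (ℓ + 1) * β) := by
        gcongr
    _ = (1 / 4 : ℝ) ^ β := by
        push_cast
        have : ((1 : ℝ) / 2) ^ 2 = 1 / 4 := by norm_num
        rw [show 2 * (ℓ + 1) * β = 2 * (ℓ * β + β) by ring, pow_mul, this,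
          pow_add (1 / 4 : ℝ), ← mul_assoc, ← pow_mul, ← mul_pow]
        norm_num
    _ ≤ (1 / 4 : ℝ) ^ 2 := by
        apply pow_le_pow_of_le_one (by norm_num) (by norm_num)
        have : 1 ≤ P * (ℓ + 1) := Nat.one_le_iff_ne_zero.2 (by positivity)
        rw [hβ]
        nlinarith
    _ = 1 / 16 := by norm_num

/-- The graph of a sample. -/
def sampGraph {m P : ℕ} [NeZero P] (f : Samp m P) : SimpleGraph (Fin m) where
  Adj := fun a b => a ≠ b ∧ f s(a, b) = 0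
  symm := ⟨fun a b h => ⟨h.1.symm, by rw [Sym2.eq_swap]; exact h.2⟩⟩
  loopless := ⟨fun a h => h.1 rfl⟩

open Classical in
/-- **Existence of the label graph.** -/
theorem exists_labelGraph (ℓ t : ℕ) (ht : 1 ≤ t) : ∃ Γ : SimpleGraph (Fin (4 ^ ℓ)),
    (∀ a b, a ≠ b → (univ.filter (fun z => Γ.Adj z a ∧ Γ.Adj z b)).card ≤ 2 * ℓ + 1) ∧
    (∀ a, (univ.filter (fun b => Γ.Adj a b)).card ≤ 2 ^ (ℓ + 2)) ∧
    (∀ A : Finset (Fin (4 ^ ℓ)), 4 * (2 ^ (ℓ + 1) * t) * (ℓ + 1) + 1 ≤ A.card →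
      ∃ a ∈ A, ∃ b ∈ A, Γ.Adj a b) ∧
    (∀ S S' : Finset (Fin (4 ^ ℓ)), S.card = t → S'.card = t → Disjoint S S' →
      (univ.filter (fun z => z ∉ S ∧ z ∉ S' ∧ (∃ a ∈ S, Γ.Adj z a) ∧ (∃ c ∈ S', Γ.Adj z c))).card
        ≤ 2 * ℓ * t + 1) := by
  have hPpos' : 0 < 2 ^ (ℓ + 1) * t := by positivity
  have hnum1 := num_co ℓ t 1 ht ht
  have hnum2 := num_co ℓ t t le_rfl ht
  have hnum3 := num_deg ℓ t ht
  have hnum4 := num_ind ℓ (2 ^ (ℓ + 1) * t) hPpos'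
  obtain ⟨P, hP⟩ : ∃ P, P = 2 ^ (ℓ + 1) * t := ⟨_, rfl⟩
  rw [← hP] at hPpos' hnum1 hnum2 hnum3 hnum4 ⊢
  have hNZ : NeZero P := ⟨hPpos'.ne'⟩
  clear hP
  generalize 4 ^ ℓ = m at *
  have hbad : pr (fun f : Samp m P => EvCo 1 (2 * ℓ * 1 + 2) f ∨ EvCo t (2 * ℓ * t + 2) f ∨
      EvDeg (2 ^ (ℓ + 2)) f ∨ EvInd (4 * P * (ℓ + 1) + 1) f) < 1 := by
    have h1 := (pr_EvCo (m := m) (P := P) 1 (2 * ℓ * 1 + 2)).trans hnum1
    have h2 := (pr_EvCo (m := m) (P := P) t (2 * ℓ * t + 2)).trans hnum2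
    have h3 := (pr_EvDeg (m := m) (P := P) (2 ^ (ℓ + 2))).trans hnum3
    have h4 := (pr_EvInd (m := m) (P := P) (4 * P * (ℓ + 1) + 1)).trans hnum4
    refine ((pr_or _ _).trans (add_le_add h1 ((pr_or _ _).trans (add_le_add h2
      ((pr_or _ _).trans (add_le_add h3 h4)))))).trans_lt (by norm_num)
  obtain ⟨f, hf⟩ := exists_not_of_pr_lt_one hbad
  push Not at hf
  obtain ⟨hf1, hf2, hf3, hf4⟩ := hf
  refine ⟨sampGraph f, ?_, ?_, ?_, ?_⟩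
  · intro a b hab
    by_contra hcon
    push Not at hcon
    obtain ⟨W, hW, hWc⟩ := Finset.exists_subset_card_eq (Nat.succ_le_of_lt hcon)
    apply hf1
    refine ⟨{a}, by simp [mem_powersetCard], {b}, by simp [mem_powersetCard], W,
      by rw [mem_powersetCard]; exact ⟨subset_univ _, by rw [hWc, Nat.succ_eq_add_one]; ring⟩, ?_, ?_, ?_, ?_⟩
    · simpa using hab
    · rw [disjoint_singleton_right]
      intro h
      exact (mem_filter.1 (hW h)).2.1.1 rfl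
    · rw [disjoint_singleton_right]
      intro h
      exact (mem_filter.1 (hW h)).2.2.1 rfl
    · intro z hz
      have := (mem_filter.1 (hW hz)).2
      exact ⟨⟨a, mem_singleton_self _, this.1.2⟩, ⟨b, mem_singleton_self _, this.2.2⟩⟩
  · intro a
    by_contra hcon
    push Not at hcon
    obtain ⟨W, hW, hWc⟩ := Finset.exists_subset_card_eq hcon.le
    apply hf3
    refine ⟨a, mem_univ _, W, by rw [mem_powersetCard]; exact ⟨subset_univ _, hWc⟩, ?_, ?_⟩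
    · intro h
      exact (mem_filter.1 (hW h)).2.1 rfl
    · intro w hw
      exact (mem_filter.1 (hW hw)).2.2
  · intro A hA
    by_contra hcon
    push Not at hcon
    obtain ⟨W, hW, hWc⟩ := Finset.exists_subset_card_eq hA
    apply hf4
    refine ⟨W, by rw [mem_powersetCard]; exact ⟨subset_univ _, hWc⟩, ?_⟩
    intro e he h0
    obtain ⟨⟨a, b⟩, hab, rfl⟩ := mem_image.1 he
    rw [mem_offDiag] at hab
    exact hcon a (hW hab.1) b (hW hab.2.1) ⟨hab.2.2, h0⟩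
  · intro S S' hS hS' hdis
    by_contra hcon
    push Not at hcon
    obtain ⟨W, hW, hWc⟩ := Finset.exists_subset_card_eq (Nat.succ_le_of_lt hcon)
    apply hf2
    refine ⟨S, by rw [mem_powersetCard]; exact ⟨subset_univ _, hS⟩, S',
      by rw [mem_powersetCard]; exact ⟨subset_univ _, hS'⟩, W,
      by rw [mem_powersetCard]; exact ⟨subset_univ _, by rw [hWc]⟩, hdis, ?_, ?_, ?_⟩
    · rw [Finset.disjoint_left]
      intro z hz hz'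
      exact (mem_filter.1 (hW hz)).2.1 hz'
    · rw [Finset.disjoint_left]
      intro z hz hz'
      exact (mem_filter.1 (hW hz)).2.2.1 hz'
    · intro z hz
      obtain ⟨-, -, ⟨a, ha, haz⟩, ⟨c, hc, hcz⟩⟩ := (mem_filter.1 (hW hz)).2
      exact ⟨⟨a, ha, haz.2⟩, ⟨c, hc, hcz.2⟩⟩

end Pool.Agent.Lib.MP_e8016c
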