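import Mathlib
import Pool.Agent.Lib.MP_e8016c.LabelGraph
import Pool.Agent.Lib.MP_e8016c.Indep

/-!
# The pair `(Γ, r)` of label graphs
-/

namespace Pool.Agent.Lib.MP_e8016c

open Finset

open Classical in
/-- A random subgraph `r` of a given graph `F`. -/
theorem exists_rgraph (ℓ t : ℕ) (ht : 8 * ℓ + 8 ≤ t) (F : SimpleGraph (Fin (4 ^ ℓ))) :
    ∃ r : SimpleGraph (Fin (4 ^ ℓ)), r ≤ F ∧
      (∀ A : Finset (Fin (4 ^ ℓ)), t ≤ A.card → ∃ a ∈ A, ∃ b ∈ A, a ≠ b ∧ ¬ r.Adj a b) ∧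
      (∀ S S' : Finset (Fin (4 ^ ℓ)), S.card = t → S'.card = t → Disjoint S S' →
        t * t ≤ 2 * ((S ×ˢ S').filter (fun q => F.Adj q.1 q.2)).card →
        ∃ a ∈ S, ∃ c ∈ S', r.Adj a c) := by
  have hm4 : (((4 ^ ℓ : ℕ) : ℕ) : ℝ) = 2 ^ (2 * ℓ) := by push_cast; rw [pow_mul]; norm_num
  have hchoose : 2 * ℓ * t + 2 ≤ t.choose 2 := by
    rw [Nat.choose_two_right, Nat.le_div_iff_mul_le (by norm_num)]
    have : 8 * ℓ + 7 ≤ t - 1 := by omega
    calc (2 * ℓ * t + 2) * 2 ≤ t * (8 * ℓ + 7) := by nlinarith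
      _ ≤ t * (t - 1) := Nat.mul_le_mul_left _ this
  have hnum1 : (((4 ^ ℓ : ℕ) : ℕ) : ℝ) ^ t * (1 / ((2 : ℕ) : ℝ)) ^ (t.choose 2) ≤ 1 / 4 := by
    rw [hm4]
    calc ((2 : ℝ) ^ (2 * ℓ)) ^ t * (1 / ((2 : ℕ) : ℝ)) ^ (t.choose 2)
        ≤ ((2 : ℝ) ^ (2 * ℓ)) ^ t * (1 / ((2 : ℕ) : ℝ)) ^ (2 * ℓ * t + 2) := by
          have : (1 / ((2 : ℕ) : ℝ)) ^ (t.choose 2) ≤ (1 / ((2 : ℕ) : ℝ)) ^ (2 * ℓ * t + 2) :=
            pow_le_pow_of_le_one (by norm_num) (by norm_num) hchoose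
          gcongr
      _ = 1 / 4 := by
          rw [← pow_mul, pow_add, ← mul_assoc, one_div, inv_pow]
          push_cast
          rw [mul_inv_cancel₀ (by positivity)]
          norm_num
  have hnum2 : ∀ N : ℕ, t * t ≤ 2 * N → (((4 ^ ℓ : ℕ) : ℕ) : ℝ) ^ t *
      ((((4 ^ ℓ : ℕ) : ℕ) : ℝ) ^ t * (1 - 1 / ((2 : ℕ) : ℝ)) ^ N) ≤ 1 / 4 := by
    intro N hN
    have hN' : 4 * ℓ * t + 2 ≤ N := by nlinarith
    rw [hm4]
    calc ((2 : ℝ) ^ (2 * ℓ)) ^ t * (((2 : ℝ) ^ (2 * ℓ)) ^ t * (1 - 1 / ((2 : ℕ) : ℝ)) ^ N)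
        ≤ ((2 : ℝ) ^ (2 * ℓ)) ^ t * (((2 : ℝ) ^ (2 * ℓ)) ^ t *
          (1 - 1 / ((2 : ℕ) : ℝ)) ^ (4 * ℓ * t + 2)) := by
          have : (1 - 1 / ((2 : ℕ) : ℝ)) ^ N ≤ (1 - 1 / ((2 : ℕ) : ℝ)) ^ (4 * ℓ * t + 2) :=
            pow_le_pow_of_le_one (by norm_num) (by norm_num) hN'
          gcongr
      _ = 1 / 4 := by
          have h1 : (1 - 1 / ((2 : ℕ) : ℝ)) = (2 : ℝ)⁻¹ := by norm_num
          rw [h1, ← mul_assoc, ← pow_mul, ← pow_add, pow_add (2 : ℝ)⁻¹, ← mul_assoc, inv_pow,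
            show 2 * ℓ * t + 2 * ℓ * t = 4 * ℓ * t by ring, mul_inv_cancel₀ (by positivity)]
          norm_num
  generalize 4 ^ ℓ = m at *
  have hbad : pr (fun f : Samp m 2 =>
      (∃ A ∈ powersetCard t (univ : Finset (Fin m)),
        ∀ e ∈ (A.offDiag.image Sym2.mk.uncurry), f e = 0) ∨
      (∃ S ∈ powersetCard t (univ : Finset (Fin m)), ∃ S' ∈ powersetCard t (univ : Finset (Fin m)),
        (Disjoint S S' ∧ t * t ≤ 2 * ((S ×ˢ S').filter (fun q => F.Adj q.1 q.2)).card) ∧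
        ∀ e ∈ (((S ×ˢ S').filter (fun q => F.Adj q.1 q.2)).image Sym2.mk.uncurry), f e ≠ 0)) <
      1 := by
    have h1 : pr (fun f : Samp m 2 => ∃ A ∈ powersetCard t (univ : Finset (Fin m)),
        ∀ e ∈ (A.offDiag.image Sym2.mk.uncurry), f e = 0) ≤ 1 / 4 := by
      refine (pr_exists_mem _ _ ((1 / ((2 : ℕ) : ℝ)) ^ (t.choose 2)) ?_).trans
        (le_trans (mul_le_mul_of_nonneg_right (card_powersetCard_le t) (by positivity)) hnum1)
      intro A hA
      rw [mem_powersetCard] at hA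
      have : (A.offDiag.image Sym2.mk.uncurry).card = t.choose 2 := by
        rw [Sym2.card_image_offDiag, hA.2]
      rw [pr_zeroOn, this]
    have h2 : pr (fun f : Samp m 2 =>
        ∃ S ∈ powersetCard t (univ : Finset (Fin m)), ∃ S' ∈ powersetCard t (univ : Finset (Fin m)),
        (Disjoint S S' ∧ t * t ≤ 2 * ((S ×ˢ S').filter (fun q => F.Adj q.1 q.2)).card) ∧
        ∀ e ∈ (((S ×ˢ S').filter (fun q => F.Adj q.1 q.2)).image Sym2.mk.uncurry), f e ≠ 0) ≤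
        1 / 4 := by
      -- choose the bound `b` for a single pair
      set b : ℝ := (1 - 1 / ((2 : ℕ) : ℝ)) ^ ((t * t + 1) / 2) with hb
      have hb0 : 0 ≤ b := by rw [hb]; apply pow_nonneg; norm_num
      have hfin := hnum2 ((t * t + 1) / 2) (by omega)
      refine le_trans ?_ hfin
      refine (pr_exists_mem _ _ ((m : ℝ) ^ t * b) ?_).trans
        (mul_le_mul_of_nonneg_right (card_powersetCard_le t) (by positivity))
      intro S hS
      refine (pr_exists_mem _ _ b ?_).trans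
        (mul_le_mul_of_nonneg_right (card_powersetCard_le t) hb0)
      intro S' hS'
      by_cases hc : Disjoint S S' ∧
          t * t ≤ 2 * ((S ×ˢ S').filter (fun q => F.Adj q.1 q.2)).card
      · have hcard : (((S ×ˢ S').filter (fun q => F.Adj q.1 q.2)).image Sym2.mk.uncurry).card =
            ((S ×ˢ S').filter (fun q => F.Adj q.1 q.2)).card := by
          apply card_image_of_injOn
          rintro ⟨a, c⟩ h ⟨a', c'⟩ h' he
          rw [mem_coe, mem_filter, mem_product] at h h'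
          have he' : s(a, c) = s(a', c') := he
          rw [Sym2.eq_iff] at he'
          rcases he' with he' | he'
          · rw [he'.1, he'.2]
          · exfalso
            have : a ∈ S' := by rw [he'.1]; exact h'.1.2
            exact Finset.disjoint_left.1 hc.1 h.1.1 this
        refine (pr_mono (fun f hf => hf.2)).trans ?_
        rw [pr_nonzeroOn, hcard, hb]
        apply pow_le_pow_of_le_one (by norm_num) (by norm_num)
        omega
      · have : pr (fun ω : Samp m 2 => (Disjoint S S' ∧ t * t ≤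
            2 * ((S ×ˢ S').filter (fun q => F.Adj q.1 q.2)).card) ∧
            ∀ e ∈ (((S ×ˢ S').filter (fun q => F.Adj q.1 q.2)).image Sym2.mk.uncurry), ω e ≠ 0) ≤
            pr (fun _ : Samp m 2 => False) := pr_mono fun f hf => hc hf.1
        rw [pr_false] at this
        exact this.trans hb0
    refine ((pr_or _ _).trans (add_le_add h1 h2)).trans_lt (by norm_num)
  obtain ⟨f, hf⟩ := exists_not_of_pr_lt_one hbad
  push Not at hf
  obtain ⟨hf1, hf2⟩ := hf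
  refine ⟨F ⊓ sampGraph f, inf_le_left, ?_, ?_⟩
  · intro A hA
    obtain ⟨W, hW, hWc⟩ := Finset.exists_subset_card_eq hA
    obtain ⟨e, he, he0⟩ := hf1 W (by rw [mem_powersetCard]; exact ⟨subset_univ _, hWc⟩)
    obtain ⟨⟨a, b⟩, hab, rfl⟩ := mem_image.1 he
    rw [mem_offDiag] at hab
    exact ⟨a, hW hab.1, b, hW hab.2.1, hab.2.2, fun h => he0 h.2.2⟩
  · intro S S' hS hS' hdis hcard
    obtain ⟨e, he, he0⟩ := hf2 S (by rw [mem_powersetCard]; exact ⟨subset_univ _, hS⟩) S'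
      (by rw [mem_powersetCard]; exact ⟨subset_univ _, hS'⟩) ⟨hdis, hcard⟩
    obtain ⟨⟨a, c⟩, hac, rfl⟩ := mem_image.1 he
    rw [mem_filter, mem_product] at hac
    exact ⟨a, hac.1.1, c, hac.1.2, hac.2, hac.2.ne, he0⟩

end Pool.Agent.Lib.MP_e8016c
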