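import Mathlib

/-!
# Frugal vertex labellings of graphs of bounded degree (Rosenfeld's counting argument)
-/

namespace Pool.Agent.Lib.MP_e8016c

open Finset

section

variable {V : Type*} [Fintype V] [DecidableEq V] (B : SimpleGraph V) (m s : ℕ)

/-- No `s + 1` vertices of `U` with a common `B`-neighbour have the same label. -/
def Valid (U : Finset V) (τ : V → Fin m) : Prop :=
  ∀ (u : V) (W : Finset V), W ⊆ U → (∀ w ∈ W, B.Adj u w) → W.card = s + 1 →
    ¬ ∃ a, ∀ w ∈ W, τ w = a

variable {B m s}

theorem Valid.mono {U U' : Finset V} (h : U' ⊆ U) {τ : V → Fin m} (hτ : Valid B m s U τ) :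
    Valid B m s U' τ :=
  fun u W hW => hτ u W (hW.trans h)

theorem Valid.congr {U : Finset V} {τ σ : V → Fin m} (h : ∀ v ∈ U, σ v = τ v)
    (hτ : Valid B m s U τ) : Valid B m s U σ := by
  intro u W hW hadj hc
  rintro ⟨a, ha⟩
  exact hτ u W hW hadj hc ⟨a, fun w hw => by rw [← h w (hW hw)]; exact ha w hw⟩

variable (B m s)

open Classical in
/-- The number of labellings valid on `U`. -/
noncomputable def numValid (U : Finset V) : ℕ :=
  (univ.filter (fun τ : V → Fin m => Valid B m s U τ)).card

variable {B m s}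

open Classical in
/-- The key counting step. -/
theorem card_const_mul_le (U W' : Finset V) (x w₀ : V) (hxU : x ∉ U) (hW'U : W' ⊆ U)
    (hw₀ : w₀ ∈ W') (hc : W'.card = s) :
    (univ.filter (fun τ : V → Fin m => Valid B m s U τ ∧ ∀ w ∈ W', τ w = τ x)).card * m ^ s ≤
      numValid B m s (U \ (W'.erase w₀)) := by
  set Y := insert x (W'.erase w₀) with hY
  have hxW' : x ∉ W'.erase w₀ := fun h => hxU (hW'U (mem_of_mem_erase h))
  have hYc : Y.card = s := by
    rw [hY, card_insert_of_notMem hxW', card_erase_of_mem hw₀, hc]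
    have : 0 < s := by rw [← hc]; exact card_pos.2 ⟨w₀, hw₀⟩
    omega
  have hw₀Y : w₀ ∉ Y := by
    rw [hY, mem_insert]
    rintro (h | h)
    · exact hxU (hW'U (h ▸ hw₀))
    · exact (mem_erase.1 h).1 rfl
  have hconst : ∀ τ : V → Fin m, (∀ w ∈ W', τ w = τ x) → ∀ y ∈ Y, τ y = τ w₀ := by
    intro τ hτ y hy
    rw [hY, mem_insert] at hy
    rcases hy with rfl | hy
    · exact (hτ w₀ hw₀).symm
    · rw [hτ y (mem_of_mem_erase hy), hτ w₀ hw₀]
  have hcard : (univ : Finset (Y → Fin m)).card = m ^ s := by
    rw [card_univ, Fintype.card_fun, Fintype.card_fin, Fintype.card_coe, hYc]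
  rw [← hcard, ← card_product]
  unfold numValid
  apply card_le_card_of_injOn
    (fun q : (V → Fin m) × (Y → Fin m) => fun v => if hv : v ∈ Y then q.2 ⟨v, hv⟩ else q.1 v)
  · rintro ⟨τ, h⟩ hq
    rw [mem_coe, mem_product, mem_filter] at hq
    rw [mem_coe, mem_filter]
    refine ⟨mem_univ _, ?_⟩
    refine Valid.congr (τ := τ) ?_ (hq.1.2.1.mono sdiff_subset)
    intro v hv
    have hvY : v ∉ Y := by
      rw [mem_sdiff] at hv
      rw [hY, mem_insert]
      rintro (rfl | h')
      · exact hxU hv.1
      · exact hv.2 h'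
    simp [hvY]
  · rintro ⟨τ, h⟩ hq ⟨τ', h'⟩ hq' heq
    rw [mem_coe, mem_product, mem_filter] at hq hq'
    have h1 : ∀ v, v ∉ Y → τ v = τ' v := by
      intro v hv
      have := congrFun heq v
      simpa [hv] using this
    have h2 : h = h' := by
      funext y
      have := congrFun heq y.1
      simpa [y.2] using this
    have h3 : τ = τ' := by
      funext v
      by_cases hv : v ∈ Y
      · rw [hconst τ hq.1.2.2 v hv, hconst τ' hq'.1.2.2 v hv, h1 w₀ hw₀Y]
      · exact h1 v hv
    rw [h2, h3]

open Classical in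
theorem numValid_step (Δ : ℕ) (hΔ : ∀ v, (univ.filter (fun w => B.Adj v w)).card ≤ Δ)
    (hs : 1 ≤ s) (hm : 1 ≤ m) (h : Δ ^ (s + 1) * 2 ^ s ≤ m ^ s) :
    ∀ (n : ℕ) (U : Finset V), U.card = n → ∀ x ∉ U,
      numValid B m s U ≤ 2 * numValid B m s (insert x U) := by
  intro n
  induction n using Nat.strong_induction_on with
  | _ n ih =>
  intro U hUn x hxU
  -- removing elements from `U`
  have hrem : ∀ X ⊆ U, numValid B m s (U \ X) ≤ 2 ^ X.card * numValid B m s U := by
    intro X
    induction X using Finset.induction_on with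
    | empty => intro _; simp
    | insert a X ha ihX =>
      intro haX
      have haU : a ∈ U := haX (mem_insert_self _ _)
      have hXU : X ⊆ U := fun y hy => haX (mem_insert_of_mem hy)
      have h1 : insert a (U \ insert a X) = U \ X := by
        ext y
        simp only [mem_insert, mem_sdiff, not_or]
        constructor
        · rintro (rfl | ⟨h1, h2, h3⟩)
          · exact ⟨haU, ha⟩
          · exact ⟨h1, h3⟩
        · rintro ⟨h1, h2⟩
          by_cases hy : y = a
          · exact Or.inl hy
          · exact Or.inr ⟨h1, hy, h2⟩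
      have hlt : (U \ insert a X).card < n := by
        rw [← hUn]
        apply card_lt_card
        refine ⟨sdiff_subset, fun hsub => ?_⟩
        have := hsub haU
        rw [mem_sdiff] at this
        exact this.2 (mem_insert_self _ _)
      have h2 := ih _ hlt (U \ insert a X) rfl a (by simp)
      rw [h1] at h2
      rw [card_insert_of_notMem ha, pow_succ]
      calc numValid B m s (U \ insert a X) ≤ 2 * numValid B m s (U \ X) := h2
        _ ≤ 2 * (2 ^ X.card * numValid B m s U) := Nat.mul_le_mul_left _ (ihX hXU)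
        _ = 2 ^ X.card * 2 * numValid B m s U := by ring
  -- the bad labellings
  set N := numValid B m s U with hN
  set bad := univ.filter (fun τ : V → Fin m => Valid B m s U τ ∧ ¬ Valid B m s (insert x U) τ)
    with hbad
  set b := (2 ^ (s - 1) * N) / m ^ s with hb
  have hmpos : 0 < m ^ s := by positivity
  have hcover : bad ⊆ (univ.filter (fun u => B.Adj x u)).biUnion (fun u =>
      ((powersetCard s (univ.filter (fun w => B.Adj u w))).filter (fun W' => W' ⊆ U)).biUnion
        (fun W' => univ.filter (fun τ : V → Fin m => Valid B m s U τ ∧ ∀ w ∈ W', τ w = τ x))) := by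
    intro τ hτ
    rw [hbad, mem_filter] at hτ
    obtain ⟨-, hv, hnv⟩ := hτ
    unfold Valid at hnv
    push Not at hnv
    obtain ⟨u, W, hWU, hadj, hWc, a, ha⟩ := hnv
    have hxW : x ∈ W := by
      by_contra hxW
      refine hv u W ?_ hadj hWc ⟨a, ha⟩
      intro y hy
      rcases mem_insert.1 (hWU hy) with rfl | h'
      · exact absurd hy hxW
      · exact h'
    refine mem_biUnion.2 ⟨u, mem_filter.2 ⟨mem_univ _, (hadj x hxW).symm⟩,
      mem_biUnion.2 ⟨W.erase x, mem_filter.2 ⟨mem_powersetCard.2 ⟨?_, ?_⟩, ?_⟩,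
        mem_filter.2 ⟨mem_univ _, hv, ?_⟩⟩⟩
    · intro w hw
      exact mem_filter.2 ⟨mem_univ _, hadj w (mem_of_mem_erase hw)⟩
    · rw [card_erase_of_mem hxW, hWc]; omega
    · intro w hw
      rw [mem_erase] at hw
      rcases mem_insert.1 (hWU hw.2) with h' | h'
      · exact absurd h' hw.1
      · exact h'
    · intro w hw
      rw [ha w (mem_of_mem_erase hw), ha x hxW]
  have hbadcard : bad.card ≤ Δ * (Δ ^ s * b) := by
    refine (card_le_card hcover).trans ?_
    refine (card_biUnion_le_card_mul _ _ (Δ ^ s * b) ?_).trans (Nat.mul_le_mul_right _ (hΔ x))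
    intro u _
    have hcard1 : ((powersetCard s (univ.filter (fun w => B.Adj u w))).filter
        (fun W' => W' ⊆ U)).card ≤ Δ ^ s := by
      refine (card_filter_le _ _).trans ?_
      rw [card_powersetCard]
      exact (Nat.choose_le_pow _ _).trans (Nat.pow_le_pow_left (hΔ u) _)
    refine (card_biUnion_le_card_mul _ _ b ?_).trans (Nat.mul_le_mul_right _ hcard1)
    intro W' hW'
    rw [mem_filter, mem_powersetCard] at hW'
    obtain ⟨w₀, hw₀⟩ : W'.Nonempty := by rw [← card_pos, hW'.1.2]; omega
    rw [hb, Nat.le_div_iff_mul_le hmpos]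
    refine (card_const_mul_le U W' x w₀ hxU hW'.2 hw₀ hW'.1.2).trans ?_
    refine (hrem (W'.erase w₀) ((erase_subset _ _).trans hW'.2)).trans ?_
    rw [card_erase_of_mem hw₀, hW'.1.2]
  have h2bad : 2 * bad.card ≤ N := by
    have h1 : b * m ^ s ≤ 2 ^ (s - 1) * N := Nat.div_mul_le_self _ _
    have h2 : 2 * bad.card * m ^ s ≤ N * m ^ s := by
      calc 2 * bad.card * m ^ s ≤ 2 * (Δ * (Δ ^ s * b)) * m ^ s := by gcongr
        _ = 2 * Δ ^ (s + 1) * (b * m ^ s) := by rw [pow_succ]; ring
        _ ≤ 2 * Δ ^ (s + 1) * (2 ^ (s - 1) * N) := by gcongr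
        _ = Δ ^ (s + 1) * 2 ^ s * N := by
            obtain ⟨s', rfl⟩ : ∃ s', s = s' + 1 := ⟨s - 1, by omega⟩
            rw [Nat.add_sub_cancel, pow_succ 2 s']; ring
        _ ≤ m ^ s * N := Nat.mul_le_mul_right _ h
        _ = N * m ^ s := by ring
    exact Nat.le_of_mul_le_mul_right h2 hmpos
  have hsplit : N = numValid B m s (insert x U) + bad.card := by
    rw [hN, hbad]
    unfold numValid
    rw [← Finset.card_filter_add_card_filter_not (s := univ.filter (fun τ : V → Fin m =>
      Valid B m s U τ)) (fun τ => Valid B m s (insert x U) τ)]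
    rw [filter_filter, filter_filter]
    congr 2
    ext τ
    simp only [mem_filter, mem_univ, true_and, and_iff_right_iff_imp]
    exact fun h' => h'.mono (subset_insert _ _)
  omega

open Classical in
/-- **Frugal labelling.** A graph of maximum degree at most `Δ` has a labelling with `m` labels
such that each label occurs at most `s` times in each neighbourhood, if `Δ^{s+1} 2^s ≤ m^s`. -/
theorem exists_labelling (B : SimpleGraph V) (Δ m s : ℕ)
    (hΔ : ∀ v, (univ.filter (fun w => B.Adj v w)).card ≤ Δ)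
    (hs : 1 ≤ s) (hm : 1 ≤ m) (h : Δ ^ (s + 1) * 2 ^ s ≤ m ^ s) :
    ∃ τ : V → Fin m, ∀ u a, (univ.filter (fun v => B.Adj u v ∧ τ v = a)).card ≤ s := by
  have hpos : ∀ U : Finset V, 0 < numValid B m s U := by
    intro U
    induction U using Finset.induction_on with
    | empty =>
      unfold numValid
      rw [card_pos]
      refine ⟨fun _ => ⟨0, by omega⟩, mem_filter.2 ⟨mem_univ _, ?_⟩⟩
      intro u W hW _ hc
      rw [subset_empty] at hW
      rw [hW] at hc
      simp at hc
    | insert a U ha ih =>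
      have := numValid_step Δ hΔ hs hm h U.card U rfl a ha
      omega
  have h1 := hpos univ
  unfold numValid at h1
  rw [card_pos] at h1
  obtain ⟨τ, hτ⟩ := h1
  rw [mem_filter] at hτ
  refine ⟨τ, fun u a => ?_⟩
  by_contra hcon
  push Not at hcon
  obtain ⟨W, hW, hWc⟩ := exists_subset_card_eq (Nat.succ_le_of_lt hcon)
  refine hτ.2 u W (subset_univ _) (fun w hw => (mem_filter.1 (hW hw)).2.1) hWc
    ⟨a, fun w hw => (mem_filter.1 (hW hw)).2.2⟩

end

end Pool.Agent.Lib.MP_e8016c
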