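import Mathlib
import Pool.Agent.Lib.MP_e8016c.FarGraph

/-!
# The label pattern `(Γ, r)` used in the lower bound
-/

namespace Pool.Agent.Lib.MP_e8016c

open Finset

/-- Two labels are far apart: distinct, non-adjacent and without common neighbour. -/
def farGraph {V : Type*} (Γ : SimpleGraph V) : SimpleGraph V where
  Adj a b := a ≠ b ∧ ¬ Γ.Adj a b ∧ ∀ z, ¬ (Γ.Adj z a ∧ Γ.Adj z b)
  symm := ⟨fun _ _ h => ⟨h.1.symm, fun h' => h.2.1 h'.symm, fun z hz => h.2.2 z ⟨hz.2, hz.1⟩⟩⟩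
  loopless := ⟨fun _ h => h.1 rfl⟩

open Classical in
/-- Counting: around an edge `b b'` of `Γ`, at least half of the pairs are far. -/
theorem half_far {V : Type*} [Fintype V] (Γ : SimpleGraph V) (C t Z : ℕ)
    (hco : ∀ a b : V, a ≠ b → (univ.filter (fun z => Γ.Adj z a ∧ Γ.Adj z b)).card ≤ C)
    (b b' : V) (hbb' : Γ.Adj b b') (S S' : Finset V) (hS : S.card = t) (hS' : S'.card = t)
    (hdis : Disjoint S S') (hSb : ∀ a ∈ S, Γ.Adj a b) (hSb' : ∀ c ∈ S', Γ.Adj c b')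
    (hb'S : b' ∉ S) (hbS' : b ∉ S')
    (hZ : (univ.filter (fun z => z ∉ S ∧ z ∉ S' ∧ (∃ a ∈ S, Γ.Adj z a) ∧
      (∃ c ∈ S', Γ.Adj z c))).card ≤ Z)
    (harith : 2 * (3 * (t * C) + (2 * t + Z) * (C * C)) ≤ t * t) :
    t * t ≤ 2 * ((S ×ˢ S').filter (fun q => (farGraph Γ).Adj q.1 q.2)).card := by
  set Zs := univ.filter (fun z => z ∉ S ∧ z ∉ S' ∧ (∃ a ∈ S, Γ.Adj z a) ∧
      (∃ c ∈ S', Γ.Adj z c)) with hZs
  set bad := (S ×ˢ S').filter (fun q => ¬ (farGraph Γ).Adj q.1 q.2) with hbad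
  have hsplit : ((S ×ˢ S').filter (fun q => (farGraph Γ).Adj q.1 q.2)).card + bad.card = t * t := by
    rw [hbad, Finset.card_filter_add_card_filter_not, card_product, hS, hS']
  have hne : b ≠ b' := hbb'.ne
  -- the four kinds of bad pairs
  let B1 : Finset (V × V) := S.biUnion (fun a => (S'.filter (fun c => Γ.Adj a c)).image (fun c => (a, c)))
  let B2 : Finset (V × V) := S ×ˢ (S'.filter (fun c => Γ.Adj b c))
  let B3 : Finset (V × V) := (S.filter (fun a => Γ.Adj b' a)) ×ˢ S'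
  let B4 : Finset (V × V) := ((S ∪ S' ∪ Zs).filter (fun z => z ≠ b ∧ z ≠ b')).biUnion
    (fun z => (S.filter (fun a => Γ.Adj z a)) ×ˢ (S'.filter (fun c => Γ.Adj z c)))
  have hcover : bad ⊆ B1 ∪ (B2 ∪ (B3 ∪ B4)) := by
    rintro ⟨a, c⟩ hq
    rw [hbad, mem_filter, mem_product] at hq
    obtain ⟨⟨ha, hc⟩, hnf⟩ := hq
    simp only at ha hc hnf
    have hac : a ≠ c := by
      rintro rfl
      exact Finset.disjoint_left.1 hdis ha hc
    by_cases h1 : Γ.Adj a c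
    · apply mem_union_left
      exact mem_biUnion.2 ⟨a, ha, mem_image.2 ⟨c, mem_filter.2 ⟨hc, h1⟩, rfl⟩⟩
    · have h2 : ∃ z, Γ.Adj z a ∧ Γ.Adj z c := by
        by_contra hcon
        push Not at hcon
        exact hnf ⟨hac, h1, fun z hz => hcon z hz.1 hz.2⟩
      obtain ⟨z, hza, hzc⟩ := h2
      apply mem_union_right
      by_cases hzb : z = b
      · subst hzb
        apply mem_union_left
        exact mem_product.2 ⟨ha, mem_filter.2 ⟨hc, hzc⟩⟩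
      apply mem_union_right
      by_cases hzb' : z = b'
      · subst hzb'
        apply mem_union_left
        exact mem_product.2 ⟨mem_filter.2 ⟨ha, hza⟩, hc⟩
      apply mem_union_right
      refine mem_biUnion.2 ⟨z, mem_filter.2 ⟨?_, hzb, hzb'⟩, mem_product.2
        ⟨mem_filter.2 ⟨ha, hza⟩, mem_filter.2 ⟨hc, hzc⟩⟩⟩
      by_cases hzS : z ∈ S
      · exact mem_union_left _ (mem_union_left _ hzS)
      by_cases hzS' : z ∈ S'
      · exact mem_union_left _ (mem_union_right _ hzS')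
      exact mem_union_right _ (mem_filter.2 ⟨mem_univ _, hzS, hzS', ⟨a, ha, hza⟩, ⟨c, hc, hzc⟩⟩)
  have hB1 : B1.card ≤ t * C := by
    rw [← hS]
    apply card_biUnion_le_card_mul
    intro a ha
    refine card_image_le.trans ?_
    have hab' : a ≠ b' := fun h => hb'S (h ▸ ha)
    refine (card_le_card ?_).trans (hco a b' hab')
    intro c hc
    rw [mem_filter] at hc ⊢
    exact ⟨mem_univ _, hc.2.symm, hSb' c hc.1⟩
  have hB2 : B2.card ≤ t * C := by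
    rw [card_product, hS]
    apply Nat.mul_le_mul_left
    refine (card_le_card ?_).trans (hco b b' hne)
    intro c hc
    rw [mem_filter] at hc ⊢
    exact ⟨mem_univ _, hc.2.symm, hSb' c hc.1⟩
  have hB3 : B3.card ≤ t * C := by
    rw [card_product, hS', mul_comm]
    apply Nat.mul_le_mul_left
    refine (card_le_card ?_).trans (hco b b' hne)
    intro a ha
    rw [mem_filter] at ha ⊢
    exact ⟨mem_univ _, hSb a ha.1, ha.2.symm⟩
  have hB4 : B4.card ≤ (2 * t + Z) * (C * C) := by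
    have h1 : ((S ∪ S' ∪ Zs).filter (fun z => z ≠ b ∧ z ≠ b')).card ≤ 2 * t + Z := by
      calc _ ≤ (S ∪ S' ∪ Zs).card := card_filter_le _ _
        _ ≤ (S ∪ S').card + Zs.card := card_union_le _ _
        _ ≤ S.card + S'.card + Zs.card := by gcongr; exact card_union_le _ _
        _ ≤ 2 * t + Z := by rw [hS, hS']; omega
    refine (card_biUnion_le_card_mul _ _ (C * C) ?_).trans (Nat.mul_le_mul_right _ h1)
    intro z hz
    rw [mem_filter] at hz
    rw [card_product]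
    apply Nat.mul_le_mul
    · refine (card_le_card ?_).trans (hco z b hz.2.1)
      intro a ha
      rw [mem_filter] at ha ⊢
      exact ⟨mem_univ _, ha.2.symm, hSb a ha.1⟩
    · refine (card_le_card ?_).trans (hco z b' hz.2.2)
      intro c hc
      rw [mem_filter] at hc ⊢
      exact ⟨mem_univ _, hc.2.symm, hSb' c hc.1⟩
  have hbadcard : bad.card ≤ 3 * (t * C) + (2 * t + Z) * (C * C) := by
    calc bad.card ≤ (B1 ∪ (B2 ∪ (B3 ∪ B4))).card := card_le_card hcover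
      _ ≤ B1.card + (B2.card + (B3.card + B4.card)) := by
          refine (card_union_le _ _).trans ?_
          gcongr
          refine (card_union_le _ _).trans ?_
          gcongr
          exact card_union_le _ _
      _ ≤ _ := by omega
  omega

open Classical in
/-- **The label pattern.** -/
theorem exists_pattern (ℓ : ℕ) (hℓ : 2 ≤ ℓ) : ∃ Γ r : SimpleGraph (Fin (4 ^ ℓ)),
    (∀ a b, a ≠ b → (univ.filter (fun z => Γ.Adj z a ∧ Γ.Adj z b)).card ≤ 2 * ℓ + 1) ∧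
    (∀ a, (univ.filter (fun b => Γ.Adj a b)).card ≤ 2 ^ (ℓ + 2)) ∧
    (∀ a b, r.Adj a b → ¬ Γ.Adj a b ∧ ∀ z, ¬ (Γ.Adj z a ∧ Γ.Adj z b)) ∧
    (∀ A : Finset (Fin (4 ^ ℓ)), 64 * ℓ ^ 3 ≤ A.card → ∃ a ∈ A, ∃ b ∈ A, a ≠ b ∧ ¬ r.Adj a b) ∧
    (∀ A : Finset (Fin (4 ^ ℓ)),
      (2 * (64 * ℓ ^ 3) + 1) * (4 * (2 ^ (ℓ + 1) * (64 * ℓ ^ 3)) * (ℓ + 1)) < A.card →
      ∃ a ∈ A, ∃ b ∈ A, ∃ b' ∈ A, ∃ c ∈ A,
        Γ.Adj a b ∧ Γ.Adj b b' ∧ Γ.Adj b' c ∧ r.Adj a c) := by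
  set t := 64 * ℓ ^ 3 with ht
  have ht1 : 1 ≤ t := by
    have : 1 ≤ ℓ ^ 3 := Nat.one_le_pow _ _ (by omega)
    omega
  have ht8 : 8 * ℓ + 8 ≤ t := by
    have h1 : ℓ ^ 3 = ℓ * ℓ * ℓ := by ring
    rw [ht, h1]
    nlinarith [Nat.mul_le_mul hℓ hℓ]
  obtain ⟨Γ, hco, hdeg, hind, hG3⟩ := exists_labelGraph ℓ t ht1
  obtain ⟨r, hrF, hrcl, hrS⟩ := exists_rgraph ℓ t ht8 (farGraph Γ)
  refine ⟨Γ, r, hco, hdeg, fun a b h => (hrF h).2, hrcl, ?_⟩
  intro A hA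
  -- a subset with large minimum degree
  have hex : ∃ A' ⊆ A, A'.Nonempty ∧ ∀ v ∈ A',
      2 * t + 1 ≤ (A'.filter (fun w => Γ.Adj v w)).card := by
    by_contra hcon
    push Not at hcon
    have hyp1 : ∀ A' ⊆ A, A'.Nonempty → ∃ v ∈ A',
        (A'.filter (fun w => w ≠ v ∧ (Γ.Adj v w ∨ Γ.Adj w v))).card ≤ 2 * t := by
      intro A' hA' hne
      obtain ⟨v, hv, hlt⟩ := hcon A' hA' hne
      refine ⟨v, hv, le_trans (card_le_card ?_) (Nat.le_of_lt_succ hlt)⟩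
      intro w hw
      rw [mem_filter] at hw ⊢
      refine ⟨hw.1, ?_⟩
      rcases hw.2.2 with h | h
      · exact h
      · exact h.symm
    have hyp2 : (2 * t + 1) * (4 * (2 ^ (ℓ + 1) * t) * (ℓ + 1) + 1) < A.card + (2 * t + 1) := by
      have : (2 * t + 1) * (4 * (2 ^ (ℓ + 1) * t) * (ℓ + 1) + 1) =
          (2 * t + 1) * (4 * (2 ^ (ℓ + 1) * t) * (ℓ + 1)) + (2 * t + 1) := by ring
      rw [this]
      exact Nat.add_lt_add_right hA _
    obtain ⟨Q, hQA, hQc, hQ⟩ := exists_indep (fun a b => Γ.Adj a b) (2 * t)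
      (4 * (2 ^ (ℓ + 1) * t) * (ℓ + 1) + 1) A (by convert hyp1) hyp2
    obtain ⟨a, ha, b, hb, hab⟩ := hind Q hQc.ge
    exact hQ a ha b hb hab.ne hab
  obtain ⟨A', hA'A, ⟨b, hb⟩, hmin⟩ := hex
  -- choose the edge `b b'` and the sets `S`, `S'`
  obtain ⟨b', hb'⟩ : (A'.filter (fun w => Γ.Adj b w)).Nonempty := by
    rw [← card_pos]; have := hmin b hb; omega
  rw [mem_filter] at hb'
  have hScard : t ≤ ((A'.filter (fun w => Γ.Adj b w)).erase b').card := by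
    rw [card_erase_of_mem (mem_filter.2 hb')]
    have h1 : 2 * t + 1 ≤ (A'.filter (fun w => Γ.Adj b w)).card := hmin b hb
    exact Nat.le_sub_of_add_le (le_trans (by omega) h1)
  obtain ⟨S, hS, hSc⟩ := exists_subset_card_eq hScard
  have hS'card : t ≤ (((A'.filter (fun w => Γ.Adj b' w)).erase b) \ S).card := by
    have h1 := hmin b' hb'.1
    have h2 : ((A'.filter (fun w => Γ.Adj b' w)).erase b).card =
        (A'.filter (fun w => Γ.Adj b' w)).card - 1 :=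
      card_erase_of_mem (mem_filter.2 ⟨hb, hb'.2.symm⟩)
    have h3 := le_card_sdiff S ((A'.filter (fun w => Γ.Adj b' w)).erase b)
    rw [h2, hSc] at h3
    refine le_trans ?_ h3
    exact Nat.le_sub_of_add_le (Nat.le_sub_of_add_le (le_trans (by omega) h1))
  obtain ⟨S', hS', hS'c⟩ := exists_subset_card_eq hS'card
  have hSb : ∀ a ∈ S, a ∈ A' ∧ Γ.Adj a b ∧ a ≠ b' := by
    intro a ha
    have := hS ha
    rw [mem_erase, mem_filter] at this
    exact ⟨this.2.1, this.2.2.symm, this.1⟩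
  have hSb' : ∀ c ∈ S', c ∈ A' ∧ Γ.Adj c b' ∧ c ≠ b ∧ c ∉ S := by
    intro c hc
    have := hS' hc
    rw [mem_sdiff, mem_erase, mem_filter] at this
    exact ⟨this.1.2.1, this.1.2.2.symm, this.1.1, this.2⟩
  have hdis : Disjoint S S' := by
    rw [Finset.disjoint_left]
    intro z hz hz'
    exact (hSb' z hz').2.2.2 hz
  have harith : 2 * (3 * (t * (2 * ℓ + 1)) + (2 * t + (2 * ℓ * t + 1)) *
      ((2 * ℓ + 1) * (2 * ℓ + 1))) ≤ t * t := by
    have h1 : 3 * (t * (2 * ℓ + 1)) + (2 * t + (2 * ℓ * t + 1)) * ((2 * ℓ + 1) * (2 * ℓ + 1)) ≤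
        t * (((2 * ℓ + 1) * (2 * ℓ + 1)) * (2 * ℓ + 6)) := by
      have e1 : 3 * (t * (2 * ℓ + 1)) ≤ t * ((2 * ℓ + 1) * (2 * ℓ + 1)) * 3 := by nlinarith
      have e2 : (2 * t + (2 * ℓ * t + 1)) ≤ t * (2 * ℓ + 3) := by nlinarith
      calc _ ≤ t * ((2 * ℓ + 1) * (2 * ℓ + 1)) * 3 +
            t * (2 * ℓ + 3) * ((2 * ℓ + 1) * (2 * ℓ + 1)) :=
            Nat.add_le_add e1 (Nat.mul_le_mul_right _ e2)
        _ = _ := by ring
    have h2 : 2 * (((2 * ℓ + 1) * (2 * ℓ + 1)) * (2 * ℓ + 6)) ≤ t := by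
      rw [ht]
      obtain ⟨n, rfl⟩ : ∃ n, ℓ = n + 2 := ⟨ℓ - 2, by omega⟩
      ring_nf
      nlinarith [Nat.zero_le (n ^ 3), Nat.zero_le (n ^ 2), Nat.zero_le n]
    calc _ ≤ 2 * (t * (((2 * ℓ + 1) * (2 * ℓ + 1)) * (2 * ℓ + 6))) := Nat.mul_le_mul_left _ h1
      _ = t * (2 * (((2 * ℓ + 1) * (2 * ℓ + 1)) * (2 * ℓ + 6))) := by ring
      _ ≤ t * t := Nat.mul_le_mul_left _ h2
  have hhalf := half_far Γ (2 * ℓ + 1) t (2 * ℓ * t + 1) hco b b' hb'.2 S S' hSc hS'c hdis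
    (fun a ha => (hSb a ha).2.1) (fun c hc => (hSb' c hc).2.1)
    (fun h => (hSb b' h).2.2 rfl) (fun h => (hSb' b h).2.2.1 rfl)
    (by convert hG3 S S' hSc hS'c hdis) harith
  obtain ⟨a, ha, c, hc, hac⟩ := hrS S S' hSc hS'c hdis (by convert hhalf)
  exact ⟨a, hA'A (hSb a ha).1, b, hA'A hb, b', hA'A hb'.1, c, hA'A (hSb' c hc).1,
    (hSb a ha).2.1, hb'.2, (hSb' c hc).2.1.symm, hac⟩

end Pool.Agent.Lib.MP_e8016c
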