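import Mathlib
import Pool.Agent.Lib.MP_e8016c.Pattern
import Pool.Agent.Lib.MP_e8016c.Labelling

/-!
# The recolouring lemma
-/

namespace Pool.Agent.Lib.MP_e8016c

open Finset

section

variable {V Λ : Type*} (R B : SimpleGraph V) (Γ r : SimpleGraph Λ) (τ : V → Λ)

/-- `u` and `v` are joined by a `B`-path of length three whose labels form a walk in `Γ`. -/
def Near (u v : V) : Prop :=
  ∃ x y, B.Adj u x ∧ B.Adj x y ∧ B.Adj y v ∧
    Γ.Adj (τ u) (τ x) ∧ Γ.Adj (τ x) (τ y) ∧ Γ.Adj (τ y) (τ v)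

theorem Near.symm {u v : V} (h : Near B Γ τ u v) : Near B Γ τ v u := by
  obtain ⟨x, y, h1, h2, h3, h4, h5, h6⟩ := h
  exact ⟨y, x, h3.symm, h2.symm, h1.symm, h6.symm, h5.symm, h4.symm⟩

/-- The new red graph. -/
def newRed : SimpleGraph V where
  Adj u v := (R ⊔ B).Adj u v ∧
    (((τ u = τ v ∨ Γ.Adj (τ u) (τ v)) ∧ R.Adj u v) ∨
      (r.Adj (τ u) (τ v) ∧ (B.Adj u v ∨ Near B Γ τ u v)))
  symm := ⟨fun u v h => by
    refine ⟨h.1.symm, ?_⟩
    rcases h.2 with ⟨h1 | h1, h2⟩ | ⟨h1, h2 | h2⟩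
    · exact Or.inl ⟨Or.inl h1.symm, h2.symm⟩
    · exact Or.inl ⟨Or.inr h1.symm, h2.symm⟩
    · exact Or.inr ⟨h1.symm, Or.inl h2.symm⟩
    · exact Or.inr ⟨h1.symm, Or.inr h2.symm⟩⟩
  loopless := ⟨fun u h => (R ⊔ B).loopless.irrefl u h.1⟩

end

open Classical in
/-- The number of `B`- or `Near`-neighbours of `u` with a given far label. -/
theorem card_second_le {V Λ : Type*} [Fintype V] [Fintype Λ] (B : SimpleGraph V)
    (Γ r : SimpleGraph Λ) (τ : V → Λ) (C D s : ℕ)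
    (hco : ∀ a b, a ≠ b → (univ.filter (fun z => Γ.Adj z a ∧ Γ.Adj z b)).card ≤ C)
    (hdeg : ∀ a, (univ.filter (fun b => Γ.Adj a b)).card ≤ D)
    (hr : ∀ a b, r.Adj a b → ¬ Γ.Adj a b ∧ ∀ z, ¬ (Γ.Adj z a ∧ Γ.Adj z b))
    (hτ : ∀ u a, (univ.filter (fun v => B.Adj u v ∧ τ v = a)).card ≤ s) (u : V) (c : Λ) :
    (univ.filter (fun w => (r.Adj (τ u) (τ w) ∧ (B.Adj u w ∨ Near B Γ τ u w)) ∧ τ w = c)).card ≤
      s + D * (C * (s * (s * s))) := by
  by_cases hrc : r.Adj (τ u) c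
  swap
  · have : univ.filter (fun w => (r.Adj (τ u) (τ w) ∧ (B.Adj u w ∨ Near B Γ τ u w)) ∧ τ w = c) =
        ∅ := by
      apply filter_eq_empty_iff.2
      rintro w - ⟨⟨h1, -⟩, h2⟩
      exact hrc (h2 ▸ h1)
    rw [this]
    simp
  have hcover : univ.filter (fun w => (r.Adj (τ u) (τ w) ∧ (B.Adj u w ∨ Near B Γ τ u w)) ∧
      τ w = c) ⊆ univ.filter (fun v => B.Adj u v ∧ τ v = c) ∪
      (univ.filter (fun b => Γ.Adj (τ u) b)).biUnion (fun b =>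
        (univ.filter (fun b' => Γ.Adj b' b ∧ Γ.Adj b' c)).biUnion (fun b' =>
          (univ.filter (fun x => B.Adj u x ∧ τ x = b)).biUnion (fun x =>
            (univ.filter (fun y => B.Adj x y ∧ τ y = b')).biUnion (fun y =>
              univ.filter (fun v => B.Adj y v ∧ τ v = c))))) := by
    intro w hw
    rw [mem_filter] at hw
    obtain ⟨-, ⟨-, h | h⟩, hc⟩ := hw
    · exact mem_union_left _ (mem_filter.2 ⟨mem_univ _, h, hc⟩)
    · apply mem_union_right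
      obtain ⟨x, y, h1, h2, h3, h4, h5, h6⟩ := h
      refine mem_biUnion.2 ⟨τ x, mem_filter.2 ⟨mem_univ _, h4⟩, mem_biUnion.2 ⟨τ y,
        mem_filter.2 ⟨mem_univ _, h5.symm, hc ▸ h6⟩, mem_biUnion.2 ⟨x,
        mem_filter.2 ⟨mem_univ _, h1, rfl⟩, mem_biUnion.2 ⟨y,
        mem_filter.2 ⟨mem_univ _, h2, rfl⟩, mem_filter.2 ⟨mem_univ _, h3, hc⟩⟩⟩⟩⟩
  refine (card_le_card hcover).trans ((card_union_le _ _).trans (Nat.add_le_add (hτ u c) ?_))
  refine (card_biUnion_le_card_mul _ _ (C * (s * (s * s))) ?_).trans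
    (Nat.mul_le_mul_right _ (hdeg _))
  intro b hb
  rw [mem_filter] at hb
  have hbc : b ≠ c := by
    rintro rfl
    exact (hr _ _ hrc).1 hb.2
  refine (card_biUnion_le_card_mul _ _ (s * (s * s)) ?_).trans
    (Nat.mul_le_mul_right _ (hco b c hbc))
  intro b' _
  refine (card_biUnion_le_card_mul _ _ (s * s) ?_).trans (Nat.mul_le_mul_right _ (hτ u b))
  intro x _
  refine (card_biUnion_le_card_mul _ _ s ?_).trans (Nat.mul_le_mul_right _ (hτ x b'))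
  intro y _
  exact hτ y c

open Classical in
/-- The label set of a red clique is small. -/
theorem card_labels_le {Λ : Type*} [Fintype Λ] (Γ r : SimpleGraph Λ) (C t : ℕ)
    (hco : ∀ a b, a ≠ b → (univ.filter (fun z => Γ.Adj z a ∧ Γ.Adj z b)).card ≤ C)
    (hr : ∀ a b, r.Adj a b → ¬ Γ.Adj a b ∧ ∀ z, ¬ (Γ.Adj z a ∧ Γ.Adj z b))
    (hrcl : ∀ A : Finset Λ, t ≤ A.card → ∃ a ∈ A, ∃ b ∈ A, a ≠ b ∧ ¬ r.Adj a b)
    (A : Finset Λ) (hA : ∀ a ∈ A, ∀ b ∈ A, a ≠ b → Γ.Adj a b ∨ r.Adj a b) :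
    A.card ≤ (C + 2) * t := by
  by_contra hcon
  push Not at hcon
  -- `Γ` restricted to `A` has small degrees
  have hdegA : ∀ a ∈ A, (A.filter (fun b => Γ.Adj a b)).card ≤ C + 1 := by
    intro a ha
    by_cases hne : (A.filter (fun b => Γ.Adj a b)).Nonempty
    · obtain ⟨b, hb⟩ := hne
      have hb' := mem_filter.1 hb
      have h1 : (A.filter (fun b => Γ.Adj a b)).erase b ⊆
          univ.filter (fun z => Γ.Adj z a ∧ Γ.Adj z b) := by
        intro c hc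
        rw [mem_erase, mem_filter] at hc
        refine mem_filter.2 ⟨mem_univ _, hc.2.2.symm, ?_⟩
        rcases hA c hc.2.1 b hb'.1 hc.1 with h | h
        · exact h
        · exact absurd ⟨hc.2.2, hb'.2⟩ ((hr _ _ h).2 a)
      have h2 := (card_le_card h1).trans (hco a b hb'.2.ne)
      rw [card_erase_of_mem hb] at h2
      omega
    · rw [not_nonempty_iff_eq_empty] at hne
      rw [hne]; simp
  obtain ⟨Q, hQA, hQc, hQ⟩ := exists_indep (fun a b => Γ.Adj a b) (C + 1) t A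
    (by
      rintro A' hA' ⟨v, hv⟩
      refine ⟨v, hv, le_trans (card_le_card ?_) (hdegA v (hA' hv))⟩
      intro w hw
      rw [mem_filter] at hw
      refine mem_filter.2 ⟨hA' hw.1, ?_⟩
      rcases hw.2.2 with h | h
      · exact h
      · exact h.symm) (by
      have : C + 1 + 1 = C + 2 := rfl
      rw [this]
      omega)
  obtain ⟨a, ha, b, hb, hab, hnr⟩ := hrcl Q hQc.ge
  rcases hA a (hQA ha) b (hQA hb) hab with h | h
  · exact hQ a ha b hb hab h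
  · exact hnr h

/-- **Recolouring lemma.** -/
theorem recolor (ℓ k : ℕ) (hℓ : 2 ≤ ℓ) {V : Type*} [Fintype V] (R B : SimpleGraph V)
    (hR : R.CliqueFree k)
    (hB : ∀ v, Set.ncard {w | B.Adj v w} ≤ 4 ^ (ℓ - 1)) (hk : 2 ^ 19 * ℓ ^ 8 * 2 ^ ℓ ≤ k) :
    ∃ Red : SimpleGraph V, Red ≤ R ⊔ B ∧ Red.CliqueFree k ∧
      ((R ⊔ B) \ Red).CliqueFree (k - 2) := by
  classical
  obtain ⟨Γ, r, hco, hdeg, hr, hrcl, hpath⟩ := exists_pattern ℓ hℓ
  have hB' : ∀ v, (univ.filter (fun w => B.Adj v w)).card ≤ 4 ^ (ℓ - 1) := by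
    intro v
    have h1 := hB v
    rwa [Set.ncard_eq_toFinset_card', Set.toFinset_ofPred] at h1
  have hnum : (4 ^ (ℓ - 1)) ^ (2 * ℓ + 1) * 2 ^ (2 * ℓ) ≤ (4 ^ ℓ) ^ (2 * ℓ) := by
    obtain ⟨n, rfl⟩ : ∃ n, ℓ = n + 1 := ⟨ℓ - 1, by omega⟩
    rw [Nat.add_sub_cancel]
    have h4 : ∀ x : ℕ, 4 ^ x = 2 ^ (2 * x) := fun x => by rw [pow_mul]; norm_num
    rw [h4, h4, ← pow_mul, ← pow_mul, ← pow_add]
    apply Nat.pow_le_pow_right (by norm_num)
    nlinarith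
  obtain ⟨τ, hτ⟩ := exists_labelling B (4 ^ (ℓ - 1)) (4 ^ ℓ) (2 * ℓ) (by convert hB') (by omega)
    (Nat.one_le_pow _ _ (by norm_num)) hnum
  have hpos : 1 ≤ ℓ ^ 3 := Nat.one_le_pow _ _ (by omega)
  have hpos2 : 1 ≤ 2 ^ ℓ := Nat.one_le_pow _ _ (by norm_num)
  refine ⟨newRed R B Γ r τ, fun u v h => h.1, ?_, ?_⟩
  · -- red cliques
    intro K hK
    rw [SimpleGraph.isNClique_iff] at hK
    obtain ⟨hKc, hKcard⟩ := hK
    -- a pair which is not in `R`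
    have hex : ∃ u₀ ∈ K, ∃ v₀ ∈ K, u₀ ≠ v₀ ∧ ¬ R.Adj u₀ v₀ := by
      by_contra hcon
      push Not at hcon
      exact hR K ⟨fun u hu v hv huv => hcon u hu v hv huv, hKcard⟩
    obtain ⟨u₀, hu₀, v₀, hv₀, huv₀, hnR⟩ := hex
    have hr₀ : r.Adj (τ u₀) (τ v₀) ∧ (B.Adj u₀ v₀ ∨ Near B Γ τ u₀ v₀) := by
      rcases (hKc hu₀ hv₀ huv₀).2 with h | h
      · exact absurd h.2 hnR
      · exact h
    have hcover : ∀ w ∈ K, (r.Adj (τ u₀) (τ w) ∧ (B.Adj u₀ w ∨ Near B Γ τ u₀ w)) ∨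
        (r.Adj (τ v₀) (τ w) ∧ (B.Adj v₀ w ∨ Near B Γ τ v₀ w)) := by
      intro w hw
      by_cases h1 : w = u₀
      · subst h1
        right
        exact ⟨hr₀.1.symm, hr₀.2.imp (fun h => h.symm) (fun h => h.symm)⟩
      by_cases h2 : w = v₀
      · subst h2
        left
        exact hr₀
      rcases (hKc hu₀ hw (fun h => h1 h.symm)).2 with h3 | h3
      swap
      · exact Or.inl h3
      rcases (hKc hv₀ hw (fun h => h2 h.symm)).2 with h4 | h4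
      swap
      · exact Or.inr h4
      exfalso
      have hfar := hr _ _ hr₀.1
      rcases h3.1 with h5 | h5 <;> rcases h4.1 with h6 | h6
      · exact r.ne_of_adj hr₀.1 (h5.trans h6.symm)
      · rw [← h5] at h6; exact hfar.1 h6.symm
      · rw [← h6] at h5; exact hfar.1 h5
      · exact hfar.2 (τ w) ⟨h5.symm, h6.symm⟩
    -- the labels
    set A := K.image τ with hA
    have hAprop : ∀ a ∈ A, ∀ b ∈ A, a ≠ b → Γ.Adj a b ∨ r.Adj a b := by
      intro a ha b hb hab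
      obtain ⟨u, hu, rfl⟩ := mem_image.1 ha
      obtain ⟨v, hv, rfl⟩ := mem_image.1 hb
      have huv : u ≠ v := fun h => hab (by rw [h])
      rcases (hKc hu hv huv).2 with h | h
      · rcases h.1 with h' | h'
        · exact absurd h' hab
        · exact Or.inl h'
      · exact Or.inr h.1
    have hAcard : A.card ≤ (2 * ℓ + 1 + 2) * (64 * ℓ ^ 3) :=
      card_labels_le Γ r (2 * ℓ + 1) (64 * ℓ ^ 3) (by convert hco) hr hrcl A hAprop
    set ρ := 2 * ℓ + 2 ^ (ℓ + 2) * ((2 * ℓ + 1) * (2 * ℓ * (2 * ℓ * (2 * ℓ)))) with hρ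
    have hpart : ∀ u, (K.filter (fun w => r.Adj (τ u) (τ w) ∧
        (B.Adj u w ∨ Near B Γ τ u w))).card ≤ ρ * A.card := by
      intro u
      have h1 : ((K.filter (fun w => r.Adj (τ u) (τ w) ∧
        (B.Adj u w ∨ Near B Γ τ u w))).image τ).card ≤ A.card :=
        card_le_card (image_subset_image (filter_subset _ _))
      refine le_trans (card_le_mul_card_image _ ρ ?_) (Nat.mul_le_mul_left _ h1)
      intro c _
      have hsec : (univ.filter (fun w => (r.Adj (τ u) (τ w) ∧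
          (B.Adj u w ∨ Near B Γ τ u w)) ∧ τ w = c)).card ≤ ρ := by
        convert card_second_le B Γ r τ (2 * ℓ + 1) (2 ^ (ℓ + 2)) (2 * ℓ)
          (by convert hco) (by convert hdeg) hr (by convert hτ) u c
      refine le_trans (card_le_card ?_) hsec
      intro w hw
      rw [mem_filter, mem_filter] at hw
      exact mem_filter.2 ⟨mem_univ _, hw.1.2, hw.2⟩
    have hKle : K.card ≤ 2 * (ρ * A.card) := by
      have h1 : K ⊆ K.filter (fun w => r.Adj (τ u₀) (τ w) ∧ (B.Adj u₀ w ∨ Near B Γ τ u₀ w)) ∪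
          K.filter (fun w => r.Adj (τ v₀) (τ w) ∧ (B.Adj v₀ w ∨ Near B Γ τ v₀ w)) := by
        intro w hw
        rcases hcover w hw with h | h
        · exact mem_union_left _ (mem_filter.2 ⟨hw, h⟩)
        · exact mem_union_right _ (mem_filter.2 ⟨hw, h⟩)
      calc K.card ≤ _ := card_le_card h1
        _ ≤ _ := card_union_le _ _
        _ ≤ ρ * A.card + ρ * A.card := Nat.add_le_add (hpart u₀) (hpart v₀)
        _ = _ := by ring
    have hρle : ρ ≤ 97 * ℓ ^ 4 * 2 ^ ℓ := by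
      have h1 : 2 * ℓ ≤ ℓ ^ 4 * 2 ^ ℓ := by
        have h2 : ℓ ^ 4 = ℓ * ℓ ^ 3 := by ring
        have h3 : 2 ≤ 2 ^ ℓ := by
          calc 2 = 2 ^ 1 := by norm_num
            _ ≤ 2 ^ ℓ := Nat.pow_le_pow_right (by norm_num) (by omega)
        calc 2 * ℓ = ℓ * 1 * 2 := by ring
          _ ≤ ℓ * ℓ ^ 3 * 2 ^ ℓ := by gcongr
          _ = _ := by rw [h2]
      calc ρ = 2 * ℓ + 32 * ((2 * ℓ + 1) * ℓ ^ 3) * 2 ^ ℓ := by rw [hρ, pow_add]; ring
        _ ≤ ℓ ^ 4 * 2 ^ ℓ + 32 * ((3 * ℓ) * ℓ ^ 3) * 2 ^ ℓ := by gcongr; omega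
        _ = 97 * ℓ ^ 4 * 2 ^ ℓ := by ring
    have hAle : A.card ≤ 256 * ℓ ^ 4 := by
      calc A.card ≤ (2 * ℓ + 1 + 2) * (64 * ℓ ^ 3) := hAcard
        _ ≤ (4 * ℓ) * (64 * ℓ ^ 3) := by gcongr; omega
        _ = _ := by ring
    have hfin : K.card ≤ 49664 * (ℓ ^ 8 * 2 ^ ℓ) := by
      calc K.card ≤ 2 * (ρ * A.card) := hKle
        _ ≤ 2 * ((97 * ℓ ^ 4 * 2 ^ ℓ) * (256 * ℓ ^ 4)) := by gcongr
        _ = 49664 * (ℓ ^ 8 * 2 ^ ℓ) := by ring
    have h8 : 1 ≤ ℓ ^ 8 * 2 ^ ℓ := Nat.one_le_iff_ne_zero.2 (by positivity)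
    have hk' : 524288 * (ℓ ^ 8 * 2 ^ ℓ) ≤ k := by
      calc 524288 * (ℓ ^ 8 * 2 ^ ℓ) = 2 ^ 19 * ℓ ^ 8 * 2 ^ ℓ := by ring
        _ ≤ k := hk
    omega
  · -- blue cliques
    intro K hK
    rw [SimpleGraph.isNClique_iff] at hK
    obtain ⟨hKc, hKcard⟩ := hK
    have hpair : ∀ u ∈ K, ∀ v ∈ K, u ≠ v → (τ u = τ v ∨ Γ.Adj (τ u) (τ v)) → B.Adj u v := by
      intro u hu v hv huv h
      have h1 := hKc hu hv huv
      rw [SimpleGraph.sdiff_adj] at h1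
      rcases h1.1 with h2 | h2
      · exact absurd ⟨h1.1, Or.inl ⟨h, h2⟩⟩ h1.2
      · exact h2
    set A := K.image τ with hA
    have hAcard : A.card ≤ (2 * (64 * ℓ ^ 3) + 1) * (4 * (2 ^ (ℓ + 1) * (64 * ℓ ^ 3)) * (ℓ + 1)) := by
      by_contra hcon
      push Not at hcon
      obtain ⟨a, ha, b, hb, b', hb', c, hc, hab, hbb', hb'c, hac⟩ := hpath A hcon
      obtain ⟨u, hu, rfl⟩ := mem_image.1 ha
      obtain ⟨x, hx, rfl⟩ := mem_image.1 hb
      obtain ⟨y, hy, rfl⟩ := mem_image.1 hb'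
      obtain ⟨v, hv, rfl⟩ := mem_image.1 hc
      have h1 := hpair u hu x hx (fun h => hab.ne (by rw [h])) (Or.inr hab)
      have h2 := hpair x hx y hy (fun h => hbb'.ne (by rw [h])) (Or.inr hbb')
      have h3 := hpair y hy v hv (fun h => hb'c.ne (by rw [h])) (Or.inr hb'c)
      have h4 := hKc hu hv (fun h => hac.ne (by rw [h]))
      rw [SimpleGraph.sdiff_adj] at h4
      exact h4.2 ⟨h4.1, Or.inr ⟨hac, Or.inr ⟨x, y, h1, h2, h3, hab, hbb', hb'c⟩⟩⟩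
    have hfib : ∀ a ∈ A, (K.filter (fun v => τ v = a)).card ≤ 2 * ℓ + 1 := by
      intro a ha
      obtain ⟨u, hu, rfl⟩ := mem_image.1 ha
      have h1 : (K.filter (fun v => τ v = τ u)).erase u ⊆
          univ.filter (fun v => B.Adj u v ∧ τ v = τ u) := by
        intro v hv
        rw [mem_erase, mem_filter] at hv
        exact mem_filter.2 ⟨mem_univ _, hpair u hu v hv.2.1 (fun h => hv.1 h.symm)
          (Or.inl hv.2.2.symm), hv.2.2⟩
      have h3 : (univ.filter (fun v => B.Adj u v ∧ τ v = τ u)).card ≤ 2 * ℓ := by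
        convert hτ u (τ u)
      have h2 := (card_le_card h1).trans h3
      have hmem : u ∈ K.filter (fun v => τ v = τ u) := by simp [hu]
      rw [card_erase_of_mem hmem] at h2
      omega
    have hKle : K.card ≤ (2 * ℓ + 1) * A.card := card_le_mul_card_image _ _ hfib
    have hfin : K.card ≤ 396288 * (ℓ ^ 8 * 2 ^ ℓ) := by
      calc K.card ≤ (2 * ℓ + 1) * A.card := hKle
        _ ≤ (2 * ℓ + 1) * ((2 * (64 * ℓ ^ 3) + 1) *
            (4 * (2 ^ (ℓ + 1) * (64 * ℓ ^ 3)) * (ℓ + 1))) := Nat.mul_le_mul_left _ hAcard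
        _ ≤ (3 * ℓ) * ((129 * ℓ ^ 3) * (4 * (2 ^ (ℓ + 1) * (64 * ℓ ^ 3)) * (2 * ℓ))) := by
            gcongr <;> omega
        _ = 396288 * (ℓ ^ 8 * 2 ^ ℓ) := by rw [pow_succ]; ring
    have h8 : 1 ≤ ℓ ^ 8 * 2 ^ ℓ := Nat.one_le_iff_ne_zero.2 (by positivity)
    have hk' : 524288 * (ℓ ^ 8 * 2 ^ ℓ) ≤ k := by
      calc 524288 * (ℓ ^ 8 * 2 ^ ℓ) = 2 ^ 19 * ℓ ^ 8 * 2 ^ ℓ := by ring
        _ ≤ k := hk
    omega

end Pool.Agent.Lib.MP_e8016c
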