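import Mathlib
import Pool.Agent.Lib.MP_e8016c.Basic
import Pool.Agent.Lib.MP_e8016c.Recolor

/-!
# The lower bound on `g(k)`
-/

namespace Pool.Agent.Lib.MP_e8016c

open SimpleGraph Finset

/-- If there is a `k`-clique `S` in `B` and a vertex outside `S` with `g` neighbours outside `S`,
then `B` contains `K_k + K_{1,g}`. -/
theorem kStar_isContained {V : Type*} [Fintype V] [DecidableEq V] {B : SimpleGraph V} {k g : ℕ}
    {S W : Finset V} (hS : B.IsNClique k S) {v : V} (hv : v ∉ S) (hWc : W.card = g)
    (hW : ∀ w ∈ W, w ∉ S ∧ B.Adj v w) : KStar k g ⊑ B := by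
  rw [isNClique_iff] at hS
  let e := (S.equivFinOfCardEq hS.2).symm
  let e' := (W.equivFinOfCardEq hWc).symm
  let F : Fin k ⊕ (Fin 1 ⊕ Fin g) → V :=
    Sum.elim (fun i => (e i).1) (Sum.elim (fun _ => v) (fun j => (e' j).1))
  have hF1 : ∀ i, F (Sum.inl i) ∈ S := fun i => (e i).2
  have hF2 : ∀ j, F (Sum.inr (Sum.inr j)) ∈ W := fun j => (e' j).2
  refine ⟨⟨⟨F, ?_⟩, ?_⟩⟩
  · intro a b hab
    match a, b, hab with
    | Sum.inl a, Sum.inl b, hab =>
      have hne : a ≠ b := by
        intro h
        subst h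
        simp at hab
      refine hS.1 (hF1 a) (hF1 b) (fun h => ?_)
      have h1 : (e a).1 = (e b).1 := h
      exact hne (e.injective (Subtype.ext h1))
    | Sum.inl a, Sum.inr b, hab => exact absurd hab (by simp)
    | Sum.inr a, Sum.inl b, hab => exact absurd hab (by simp)
    | Sum.inr (Sum.inl a), Sum.inr (Sum.inl b), hab => exact absurd hab (by simp)
    | Sum.inr (Sum.inr a), Sum.inr (Sum.inr b), hab => exact absurd hab (by simp)
    | Sum.inr (Sum.inl a), Sum.inr (Sum.inr b), _ => exact (hW _ (hF2 b)).2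
    | Sum.inr (Sum.inr a), Sum.inr (Sum.inl b), _ => exact (hW _ (hF2 a)).2.symm
  · intro a b hab
    rcases a with a | a | a <;> rcases b with b | b | b
    · have h1 : (e a).1 = (e b).1 := hab
      rw [e.injective (Subtype.ext h1)]
    · have h1 : (e a).1 = v := hab
      exact absurd (h1 ▸ (e a).2) hv
    · have h1 : (e a).1 = (e' b).1 := hab
      have h2 : (e' b).1 ∈ S := h1 ▸ (e a).2
      exact absurd h2 (hW _ (hF2 b)).1
    · have h1 : v = (e b).1 := hab
      exact absurd (h1 ▸ (e b).2) hv
    · congr 2; exact Subsingleton.elim _ _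
    · exact absurd (show v = (e' b).1 from hab) (hW _ (hF2 b)).2.ne
    · have h1 : (e' a).1 = (e b).1 := hab
      have h2 : (e' a).1 ∈ S := h1 ▸ (e b).2
      exact absurd h2 (hW _ (hF2 a)).1
    · exact absurd (show (e' a).1 = v from hab) (hW _ (hF2 a)).2.ne'
    · have h1 : (e' a).1 = (e' b).1 := hab
      rw [e'.injective (Subtype.ext h1)]

open Classical in
/-- Greedy colouring outside a small set `T`. -/
theorem greedy {V : Type*} [Fintype V] (G : SimpleGraph V) (T : Finset V) (a d N : ℕ)
    (hT : T.card ≤ a) (hd : ∀ v, v ∉ T → (univ.filter (fun w => w ∉ T ∧ G.Adj v w)).card ≤ d)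
    (hN : a + d < N) :
    ∃ col : V → ℕ, (∀ v, col v < N) ∧ ∀ u v, G.Adj u v → col u ≠ col v := by
  have key : ∀ U : Finset V, ∃ col : V → ℕ, (∀ v ∈ T ∪ U, col v < N) ∧
      ∀ u ∈ T ∪ U, ∀ v ∈ T ∪ U, G.Adj u v → col u ≠ col v := by
    intro U
    induction U using Finset.induction_on with
    | empty =>
      let e := T.equivFin
      refine ⟨fun v => if h : v ∈ T then (e ⟨v, h⟩ : ℕ) else 0, ?_, ?_⟩
      · intro v hv
        rw [union_empty] at hv
        simp only [hv, dif_pos]
        have := (e ⟨v, hv⟩).2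
        omega
      · intro u hu v hv huv
        rw [union_empty] at hu hv
        simp only [hu, hv, dif_pos]
        intro h
        have h1 := e.injective (Fin.ext h)
        exact huv.ne (Subtype.ext_iff.1 h1)
    | insert x U hx ih =>
      obtain ⟨col, hcol, hprop⟩ := ih
      by_cases hxT : x ∈ T ∪ U
      · have : T ∪ insert x U = T ∪ U := by
          ext y
          simp only [mem_union, mem_insert] at hxT ⊢
          constructor
          · rintro (h | rfl | h)
            · exact Or.inl h
            · exact hxT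
            · exact Or.inr h
          · rintro (h | h)
            · exact Or.inl h
            · exact Or.inr (Or.inr h)
        rw [this]
        exact ⟨col, hcol, hprop⟩
      · have hxT' : x ∉ T := fun h => hxT (mem_union_left _ h)
        -- colours used by the neighbours
        have hused : (((T ∪ U).filter (fun w => G.Adj x w)).image col).card < N := by
          refine lt_of_le_of_lt card_image_le ?_
          have h1 : (T ∪ U).filter (fun w => G.Adj x w) ⊆
              T ∪ univ.filter (fun w => w ∉ T ∧ G.Adj x w) := by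
            intro w hw
            rw [mem_filter] at hw
            by_cases hwT : w ∈ T
            · exact mem_union_left _ hwT
            · exact mem_union_right _ (mem_filter.2 ⟨mem_univ _, hwT, hw.2⟩)
          have h2 := (card_le_card h1).trans (card_union_le _ _)
          have h3 := hd x hxT'
          omega
        obtain ⟨c, hc, hcn⟩ : ∃ c ∈ range N, c ∉ ((T ∪ U).filter (fun w => G.Adj x w)).image col := by
          by_contra hcon
          push Not at hcon
          have h1 : range N ⊆ ((T ∪ U).filter (fun w => G.Adj x w)).image col :=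
            fun c hc => hcon c hc
          have h2 := card_le_card h1
          rw [card_range] at h2
          omega
        have hins : ∀ v, v ∈ T ∪ insert x U ↔ v = x ∨ v ∈ T ∪ U := by
          intro v
          simp only [mem_union, mem_insert]
          tauto
        have hcx : ∀ v ∈ T ∪ U, G.Adj x v → c ≠ col v := by
          intro v hv hxv h
          exact hcn (mem_image.2 ⟨v, mem_filter.2 ⟨hv, hxv⟩, h.symm⟩)
        refine ⟨Function.update col x c, ?_, ?_⟩
        · intro v hv
          by_cases hvx : v = x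
          · subst hvx; rw [Function.update_self]; exact mem_range.1 hc
          · rw [Function.update_of_ne hvx]
            rcases (hins v).1 hv with h | h
            · exact absurd h hvx
            · exact hcol v h
        · intro u hu v hv huv
          by_cases hux : u = x
          · subst hux
            have hvu : v ≠ u := huv.ne'
            rw [Function.update_self, Function.update_of_ne hvu]
            rcases (hins v).1 hv with h | h
            · exact absurd h hvu
            · exact hcx v h huv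
          · by_cases hvx : v = x
            · subst hvx
              rw [Function.update_self, Function.update_of_ne hux]
              rcases (hins u).1 hu with h | h
              · exact absurd h hux
              · exact (hcx u h huv.symm).symm
            · rw [Function.update_of_ne hux, Function.update_of_ne hvx]
              rcases (hins u).1 hu with h | h
              · exact absurd h hux
              rcases (hins v).1 hv with h' | h'
              · exact absurd h' hvx
              exact hprop u h v h' huv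
  obtain ⟨col, h1, h2⟩ := key univ
  exact ⟨col, fun v => h1 v (mem_union_right _ (mem_univ _)),
    fun u v huv => h2 u (mem_union_right _ (mem_univ _)) v (mem_union_right _ (mem_univ _)) huv⟩

/-- A graph with a proper colouring by `(k-1)^2` colours does not arrow `K_k`. -/
theorem not_arrows_of_coloring {V : Type*} (G : SimpleGraph V) (k : ℕ) (hk : 2 ≤ k)
    (col : V → ℕ) (hcol : ∀ v, col v < (k - 1) * (k - 1))
    (hprop : ∀ u v, G.Adj u v → col u ≠ col v) : ¬ Arrows G (K k) := by
  classical
  intro hA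
  have hk1 : 0 < k - 1 := by omega
  let Red : SimpleGraph V :=
    { Adj := fun u v => G.Adj u v ∧ col u / (k - 1) = col v / (k - 1)
      symm := ⟨fun u v h => ⟨h.1.symm, h.2.symm⟩⟩
      loopless := ⟨fun u h => G.loopless.irrefl u h.1⟩ }
  have key : ∀ (H : SimpleGraph V) (f : V → ℕ), (∀ v, f v < k - 1) →
      (∀ u v, H.Adj u v → f u ≠ f v) → H.CliqueFree k := by
    intro H f hf hfH s hs
    rw [isNClique_iff] at hs
    have hinj : Set.InjOn f (s : Set V) := by
      intro u hu v hv huv
      by_contra hne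
      exact hfH u v (hs.1 hu hv hne) huv
    have h1 : (s.image f).card ≤ (range (k - 1)).card := by
      apply card_le_card
      intro x hx
      obtain ⟨v, -, rfl⟩ := mem_image.1 hx
      exact mem_range.2 (hf v)
    rw [card_image_of_injOn hinj, hs.2, card_range] at h1
    omega
  rcases hA Red (fun u v h => h.1) with h | h
  · refine (K_isContained_iff Red k).1 h (key Red (fun v => col v % (k - 1))
      (fun v => Nat.mod_lt _ hk1) ?_)
    intro u v huv hmod
    apply hprop u v huv.1
    have hmod' : col u % (k - 1) = col v % (k - 1) := hmod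
    rw [← Nat.div_add_mod (col u) (k - 1), ← Nat.div_add_mod (col v) (k - 1), huv.2, hmod']
  · refine (K_isContained_iff (G \ Red) k).1 h (key (G \ Red) (fun v => col v / (k - 1))
      (fun v => Nat.div_lt_of_lt_mul (hcol v)) ?_)
    intro u v huv hdiv
    rw [sdiff_adj] at huv
    exact huv.2 ⟨huv.1, hdiv⟩

open Classical in
/-- One-sided version of the lower bound. -/
theorem one_side (ℓ k g : ℕ) (hℓ : 2 ≤ ℓ) (hk : 2 ^ 19 * ℓ ^ 8 * 2 ^ ℓ ≤ k)
    (hg1 : 1 ≤ g) (hg : g ≤ 4 ^ (ℓ - 1) + 1) {V : Type*} [Fintype V] (G R : SimpleGraph V)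
    (hRG : R ≤ G) (hG : Arrows G (K k)) (hnR : ¬ KStar k g ⊑ R) (hnB : ¬ KStar k g ⊑ G \ R)
    (S : Finset V) (hS : (G \ R).IsNClique k S) : False := by
  have h8 : 1 ≤ ℓ ^ 8 * 2 ^ ℓ := Nat.one_le_iff_ne_zero.2 (by positivity)
  have hk' : 524288 * (ℓ ^ 8 * 2 ^ ℓ) ≤ k := by
    calc 524288 * (ℓ ^ 8 * 2 ^ ℓ) = 2 ^ 19 * ℓ ^ 8 * 2 ^ ℓ := by ring
      _ ≤ k := hk
  have hdegB : ∀ v, v ∉ S → (univ.filter (fun w => w ∉ S ∧ (G \ R).Adj v w)).card < g := by
    intro v hv
    by_contra hcon
    push Not at hcon
    obtain ⟨W, hW, hWc⟩ := exists_subset_card_eq hcon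
    exact hnB (kStar_isContained hS hv hWc (fun w hw => (mem_filter.1 (hW hw)).2))
  by_cases hRfree : R.CliqueFree k
  swap
  · -- both colours contain a `K_k`
    have hex : ∃ S' : Finset V, R.IsNClique k S' := by
      unfold CliqueFree at hRfree
      push Not at hRfree
      exact hRfree
    obtain ⟨S', hS'⟩ := hex
    have hdegR : ∀ v, v ∉ S' → (univ.filter (fun w => w ∉ S' ∧ R.Adj v w)).card < g := by
      intro v hv
      by_contra hcon
      push Not at hcon
      obtain ⟨W, hW, hWc⟩ := exists_subset_card_eq hcon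
      exact hnR (kStar_isContained hS' hv hWc (fun w hw => (mem_filter.1 (hW hw)).2))
    obtain ⟨col, hcol, hprop⟩ := greedy G (S ∪ S') (2 * k) (2 * g) (2 * k + 2 * g + 1)
      (by
        refine (card_union_le _ _).trans ?_
        rw [(isNClique_iff _).1 hS |>.2, (isNClique_iff _).1 hS' |>.2]
        omega)
      (by
        intro v hv
        rw [mem_union, not_or] at hv
        have h1 := hdegB v hv.1
        have h2 := hdegR v hv.2
        have h3 : univ.filter (fun w => w ∉ S ∪ S' ∧ G.Adj v w) ⊆
            univ.filter (fun w => w ∉ S ∧ (G \ R).Adj v w) ∪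
            univ.filter (fun w => w ∉ S' ∧ R.Adj v w) := by
          intro w hw
          rw [mem_filter, mem_union, not_or] at hw
          by_cases hR : R.Adj v w
          · exact mem_union_right _ (mem_filter.2 ⟨mem_univ _, hw.2.1.2, hR⟩)
          · exact mem_union_left _ (mem_filter.2 ⟨mem_univ _, hw.2.1.1, by
              rw [sdiff_adj]; exact ⟨hw.2.2, hR⟩⟩)
        have h4 := (card_le_card h3).trans (card_union_le _ _)
        omega) (by omega)
    have hnum : 2 * k + 2 * g + 1 ≤ (k - 1) * (k - 1) := by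
      obtain ⟨n, rfl⟩ : ∃ n, ℓ = n + 1 := ⟨ℓ - 1, by omega⟩
      rw [Nat.add_sub_cancel] at hg
      have h1 : 4 ^ n = 2 ^ n * 2 ^ n := by rw [← mul_pow]; norm_num
      have h2 : 2 ^ n ≤ (n + 1) ^ 8 * 2 ^ (n + 1) := by
        calc 2 ^ n ≤ 2 ^ (n + 1) := Nat.pow_le_pow_right (by norm_num) (by omega)
          _ = 1 * 2 ^ (n + 1) := by ring
          _ ≤ (n + 1) ^ 8 * 2 ^ (n + 1) :=
            Nat.mul_le_mul_right _ (Nat.one_le_pow _ _ (by omega))
      have h3 : 524288 * 2 ^ n ≤ k := by
        calc 524288 * 2 ^ n ≤ 524288 * ((n + 1) ^ 8 * 2 ^ (n + 1)) := Nat.mul_le_mul_left _ h2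
          _ ≤ k := hk'
      obtain ⟨j, rfl⟩ : ∃ j, k = j + 1 := ⟨k - 1, by omega⟩
      rw [Nat.add_sub_cancel]
      rw [h1] at hg
      have h4 : 1 ≤ 2 ^ n := Nat.one_le_pow _ _ (by norm_num)
      nlinarith
    exact not_arrows_of_coloring G k (by omega) col (fun v => (hcol v).trans_le hnum) hprop hG
  · -- only blue contains a `K_k`
    let R' : SimpleGraph V :=
      { Adj := fun u v => R.Adj u v ∧ u ∉ S ∧ v ∉ S
        symm := ⟨fun u v h => ⟨h.1.symm, h.2.2, h.2.1⟩⟩
        loopless := ⟨fun u h => R.loopless.irrefl u h.1⟩ }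
    let B' : SimpleGraph V :=
      { Adj := fun u v => (G \ R).Adj u v ∧ u ∉ S ∧ v ∉ S
        symm := ⟨fun u v h => ⟨h.1.symm, h.2.2, h.2.1⟩⟩
        loopless := ⟨fun u h => (G \ R).loopless.irrefl u h.1⟩ }
    have hR'free : R'.CliqueFree k := hRfree.anti (fun u v h => h.1)
    have hB'deg : ∀ v, Set.ncard {w | B'.Adj v w} ≤ 4 ^ (ℓ - 1) := by
      intro v
      by_cases hv : v ∈ S
      · have : {w | B'.Adj v w} = ∅ := by
          ext w
          simp only [Set.mem_ofPred_eq, Set.mem_empty_iff_false, iff_false]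
          exact fun h => h.2.1 hv
        rw [this]
        simp
      · have h1 := hdegB v hv
        have h2 : {w | B'.Adj v w} ⊆ ((univ.filter (fun w => w ∉ S ∧ (G \ R).Adj v w) :
            Finset V) : Set V) := by
          intro w hw
          simp only [coe_filter, mem_univ, true_and, Set.mem_ofPred_eq]
          exact ⟨hw.2.2, hw.1⟩
        have h3 := Set.ncard_le_ncard h2 (finite_toSet _)
        rw [Set.ncard_coe_finset] at h3
        omega
    obtain ⟨Red, hRed, hRedfree, hBluefree⟩ := recolor ℓ k hℓ R' B' hR'free hB'deg hk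
    rw [isNClique_iff] at hS
    obtain ⟨s₁, hs₁, s₂, hs₂, hs₁₂⟩ : ∃ s₁ ∈ S, ∃ s₂ ∈ S, s₁ ≠ s₂ := by
      have : 1 < S.card := by rw [hS.2]; omega
      obtain ⟨a, b, ha, hb, hab⟩ := one_lt_card_iff.1 this
      exact ⟨a, ha, b, hb, hab⟩
    let F : SimpleGraph V :=
      { Adj := fun u v => G.Adj u v ∧ ((u ∈ S ∧ v ∈ S ∧ ¬ (u = s₁ ∧ v = s₂) ∧ ¬ (u = s₂ ∧ v = s₁)) ∨
          (u ∉ S ∧ v ∉ S ∧ Red.Adj u v))
        symm := ⟨fun u v h => by
          refine ⟨h.1.symm, ?_⟩
          rcases h.2 with ⟨h1, h2, h3, h4⟩ | ⟨h1, h2, h3⟩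
          · exact Or.inl ⟨h2, h1, fun h => h4 ⟨h.2, h.1⟩, fun h => h3 ⟨h.2, h.1⟩⟩
          · exact Or.inr ⟨h2, h1, h3.symm⟩⟩
        loopless := ⟨fun u h => G.loopless.irrefl u h.1⟩ }
    have hFfree : F.CliqueFree k := by
      intro Q hQ
      rw [isNClique_iff] at hQ
      by_cases hQS : ∃ u ∈ Q, u ∈ S
      · obtain ⟨u, hu, huS⟩ := hQS
        have hsub : Q ⊆ S := by
          intro v hv
          by_cases huv : u = v
          · exact huv ▸ huS
          · rcases (hQ.1 hu hv huv).2 with h | h
            · exact h.2.1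
            · exact absurd huS h.1
        have hQeq : Q = S := eq_of_subset_of_card_le hsub (by rw [hQ.2, hS.2])
        subst hQeq
        rcases (hQ.1 hs₁ hs₂ hs₁₂).2 with h | h
        · exact h.2.2.1 ⟨rfl, rfl⟩
        · exact h.1 hs₁
      · push Not at hQS
        refine hRedfree Q ⟨?_, hQ.2⟩
        intro u hu v hv huv
        rcases (hQ.1 hu hv huv).2 with h | h
        · exact absurd h.1 (hQS u hu)
        · exact h.2.2
    have hBfree : (G \ F).CliqueFree k := by
      intro Q hQ
      rw [isNClique_iff] at hQ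
      have hQS : (Q ∩ S).card ≤ 2 := by
        have h1 : Q ∩ S ⊆ {s₁, s₂} ∨ (Q ∩ S).card ≤ 1 := by
          by_cases hc : (Q ∩ S).card ≤ 1
          · exact Or.inr hc
          · left
            push Not at hc
            intro u hu
            obtain ⟨v, hv, hvu⟩ := exists_mem_ne hc u
            rw [mem_inter] at hu hv
            have h1 := hQ.1 hu.1 hv.1 hvu.symm
            rw [sdiff_adj] at h1
            by_contra hcon
            rw [mem_insert, mem_singleton, not_or] at hcon
            exact h1.2 ⟨h1.1, Or.inl ⟨hu.2, hv.2, fun h => hcon.1 h.1, fun h => hcon.2 h.1⟩⟩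
        rcases h1 with h1 | h1
        · exact (card_le_card h1).trans card_le_two
        · omega
      have hQout : k - 2 ≤ (Q \ S).card := by
        have := card_inter_add_card_sdiff Q S
        omega
      obtain ⟨Q', hQ', hQ'c⟩ := exists_subset_card_eq hQout
      refine hBluefree Q' ⟨?_, hQ'c⟩
      intro u hu v hv huv
      have hu' := mem_sdiff.1 (hQ' hu)
      have hv' := mem_sdiff.1 (hQ' hv)
      have h1 := hQ.1 hu'.1 hv'.1 huv
      rw [sdiff_adj] at h1
      rw [sdiff_adj]
      refine ⟨?_, fun h => h1.2 ⟨h1.1, Or.inr ⟨hu'.2, hv'.2, h⟩⟩⟩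
      by_cases hR : R.Adj u v
      · exact Or.inl ⟨hR, hu'.2, hv'.2⟩
      · exact Or.inr ⟨by rw [sdiff_adj]; exact ⟨h1.1, hR⟩, hu'.2, hv'.2⟩
    rcases hG F (fun u v h => h.1) with h | h
    · exact (K_isContained_iff F k).1 h hFfree
    · exact (K_isContained_iff (G \ F) k).1 h hBfree

/-- **Lower bound.** If `2^19 ℓ^8 2^ℓ ≤ k` then `K_k` and `K_k + K_{1,g}` are Ramsey-equivalent for
all `g ≤ 4^(ℓ-1) + 1`. -/
theorem ramseyEquiv_of_small (ℓ k g : ℕ) (hℓ : 2 ≤ ℓ) (hk : 2 ^ 19 * ℓ ^ 8 * 2 ^ ℓ ≤ k)
    (hg : g ≤ 4 ^ (ℓ - 1) + 1) : RamseyEquiv (K k) (KStar k g) := by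
  classical
  apply ramseyEquiv_anti hg
  intro V _ G
  have := Fintype.ofFinite V
  constructor
  swap
  · exact fun hG => arrows_of_isContained (K_le_KStar k _) hG
  intro hG R hR
  by_contra hcon
  rw [not_or] at hcon
  have hclique : ∀ H : SimpleGraph V, K k ⊑ H → ∃ S : Finset V, H.IsNClique k S := by
    intro H hH
    have h1 := (K_isContained_iff H k).1 hH
    unfold CliqueFree at h1
    push Not at h1
    exact h1
  rcases hG R hR with h | h
  · obtain ⟨S, hS⟩ := hclique _ h
    have hGR : G \ (G \ R) = R := by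
      rw [sdiff_sdiff_right_self, inf_eq_right.2 hR]
    exact one_side ℓ k (4 ^ (ℓ - 1) + 1) hℓ hk (Nat.le_add_left 1 _) le_rfl G (G \ R) sdiff_le hG hcon.2
      (by rw [hGR]; exact hcon.1) S (by rw [hGR]; exact hS)
  · obtain ⟨S, hS⟩ := hclique _ h
    exact one_side ℓ k (4 ^ (ℓ - 1) + 1) hℓ hk (Nat.le_add_left 1 _) le_rfl G R hR hG hcon.1 hcon.2 S hS

end Pool.Agent.Lib.MP_e8016c
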