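import Mathlib

/-!
# The Folkman / Nesetril-Rodl theorem for cliques, with any finite number of colours

For every `k ≥ 3` and every finite set of colours there is a finite `K_k`-free graph such that every
colouring of its edges has a monochromatic `K_{k-1}`.  The proof is by the partite construction,
using the Hales-Jewett theorem.
-/

namespace Pool.Agent.Lib.MP_e8016c

open SimpleGraph Combinatorics

/-! ### Finite Ramsey theorem for pairs -/

/-- Pre-homogeneous sequences: the colour of a pair depends only on its smaller element. -/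
theorem exists_prehomogeneous (κ : Type) [Fintype κ] : ∀ N : ℕ, ∃ p : ℕ,
    ∀ (s : Finset ℕ), p ≤ s.card → ∀ c : ℕ → ℕ → κ,
      ∃ (f : Fin N → ℕ) (d : Fin N → κ), StrictMono f ∧ (∀ i, f i ∈ s) ∧
        ∀ i j, i < j → c (f i) (f j) = d i := by
  classical
  intro N
  induction N with
  | zero =>
    refine ⟨0, fun s _ c => ⟨Fin.elim0, Fin.elim0, ?_, ?_, ?_⟩⟩
    · intro i; exact i.elim0
    · intro i; exact i.elim0
    · intro i; exact i.elim0
  | succ N ih =>
    obtain ⟨p, hp⟩ := ih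
    refine ⟨Fintype.card κ * p + 1, fun s hs c => ?_⟩
    have hne : s.Nonempty := by
      rw [← Finset.card_pos]; omega
    set x := s.min' hne with hx
    have hxs : x ∈ s := s.min'_mem hne
    have hcard : Fintype.card κ * p ≤ (s.erase x).card := by
      rw [Finset.card_erase_of_mem hxs]; omega
    have hκ : (Finset.univ : Finset κ).Nonempty := ⟨c x x, Finset.mem_univ _⟩
    obtain ⟨col, -, hcol⟩ := Finset.exists_le_card_fiber_of_mul_le_card_of_maps_to
      (s := s.erase x) (t := (Finset.univ : Finset κ)) (f := fun y => c x y) (n := p)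
      (fun _ _ => Finset.mem_univ _) hκ (by simpa using hcard)
    obtain ⟨f, d, hf, hfs, hfd⟩ := hp _ hcol c
    have hlt : ∀ i, x < f i := by
      intro i
      have h1 := hfs i
      rw [Finset.mem_filter, Finset.mem_erase] at h1
      exact lt_of_le_of_ne (s.min'_le _ h1.1.2) (Ne.symm h1.1.1)
    refine ⟨Fin.cons x f, Fin.cons col d, ?_, ?_, ?_⟩
    · intro i j hij
      refine Fin.cases ?_ (fun j' => ?_) j (motive := fun j => i < j → (Fin.cons x f : Fin (N+1) → ℕ) i < (Fin.cons x f : Fin (N+1) → ℕ) j) hij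
      · intro h; exact absurd h (Fin.not_lt_zero i)
      · refine Fin.cases ?_ (fun i' => ?_) i
        · intro _; simpa using hlt j'
        · intro h; simpa using hf (Fin.succ_lt_succ_iff.1 h)
    · intro i
      refine Fin.cases ?_ (fun i' => ?_) i
      · simpa using hxs
      · have h1 := hfs i'
        rw [Finset.mem_filter, Finset.mem_erase] at h1
        simpa using h1.1.2
    · intro i j hij
      refine Fin.cases ?_ (fun j' => ?_) j (motive := fun j => i < j → c ((Fin.cons x f : Fin (N+1) → ℕ) i) ((Fin.cons x f : Fin (N+1) → ℕ) j) = (Fin.cons col d : Fin (N+1) → κ) i) hij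
      · intro h; exact absurd h (Fin.not_lt_zero i)
      · refine Fin.cases ?_ (fun i' => ?_) i
        · intro _
          have h1 := hfs j'
          rw [Finset.mem_filter] at h1
          simpa using h1.2
        · intro h; simpa using hfd _ _ (Fin.succ_lt_succ_iff.1 h)

/-- Finite Ramsey theorem for pairs with finitely many colours. -/
theorem ramsey_pairs (κ : Type) [Fintype κ] [Nonempty κ] (n : ℕ) : ∃ p : ℕ,
    ∀ c : Fin p → Fin p → κ, ∃ (σ : Fin n → Fin p) (col : κ), StrictMono σ ∧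
      ∀ i j, i < j → c (σ i) (σ j) = col := by
  classical
  obtain ⟨p, hp⟩ := exists_prehomogeneous κ (Fintype.card κ * n)
  refine ⟨p, fun c => ?_⟩
  by_cases hn : n = 0
  · subst hn
    exact ⟨Fin.elim0, Classical.arbitrary κ, fun i => i.elim0, fun i => i.elim0⟩
  let c' : ℕ → ℕ → κ := fun a b => if h : a < p ∧ b < p then c ⟨a, h.1⟩ ⟨b, h.2⟩
    else Classical.arbitrary κ
  obtain ⟨f, d, hf, hfs, hfd⟩ := hp (Finset.range p) (by simp) c'
  have hκ : (Finset.univ : Finset κ).Nonempty := Finset.univ_nonempty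
  obtain ⟨col, -, hcol⟩ := Finset.exists_le_card_fiber_of_mul_le_card_of_maps_to
      (s := (Finset.univ : Finset (Fin (Fintype.card κ * n)))) (t := (Finset.univ : Finset κ))
      (f := d) (n := n) (fun _ _ => Finset.mem_univ _) hκ (by simp)
  obtain ⟨t, ht, htc⟩ := Finset.exists_subset_card_eq hcol
  let g := t.orderEmbOfFin htc
  have hg : ∀ i, d (g i) = col := by
    intro i
    have := ht (Finset.orderEmbOfFin_mem t htc i)
    simpa using this
  have hlt : ∀ i, f (g i) < p := fun i => by simpa using hfs (g i)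
  refine ⟨fun i => ⟨f (g i), hlt i⟩, col, ?_, ?_⟩
  · intro i j hij
    exact hf (g.strictMono hij)
  · intro i j hij
    have h1 := hfd _ _ (g.strictMono hij)
    simp only [c', hlt, and_self, dif_pos] at h1
    rw [h1, hg]

/-! ### The partite step -/

section step

variable {κ : Type} {p : ℕ} {V : Type} (H : SimpleGraph V) (π : V → Fin p) (i j : Fin p)

/-- The edges between the parts `i` and `j`. -/
abbrev EdgeT : Type := {e : V × V // H.Adj e.1 e.2 ∧ π e.1 = i ∧ π e.2 = j}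

/-- The vertex type of the new system. -/
abbrev NewV (ι : Type) : Type := (Fin p × (ι → V)) ⊕ (Line (EdgeT H π i j) ι × V)

open Classical in
/-- The copy of the old system associated with a line. -/
noncomputable def copyMap {ι : Type} (l : Line (EdgeT H π i j) ι) (v : V) : NewV H π i j ι :=
  if π v = i then Sum.inl (i, fun n => (l.idxFun n).elim v (fun e => e.1.1))
  else if π v = j then Sum.inl (j, fun n => (l.idxFun n).elim v (fun e => e.1.2))
  else Sum.inr (l, v)

/-- The part of a new vertex. -/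
def newPart {ι : Type} : NewV H π i j ι → Fin p :=
  Sum.elim Prod.fst (fun q => π q.2)

theorem newPart_copyMap {ι : Type} (l : Line (EdgeT H π i j) ι) (v : V) :
    newPart H π i j (copyMap H π i j l v) = π v := by
  unfold copyMap newPart
  split_ifs with h1 h2 <;> simp [*]

/-- The new graph: the union of the copies of the old graph. -/
def newGraph (hπ : ∀ u v, H.Adj u v → π u ≠ π v) (ι : Type) : SimpleGraph (NewV H π i j ι) where
  Adj w₁ w₂ := ∃ (l : Line (EdgeT H π i j) ι) (v₁ v₂ : V), H.Adj v₁ v₂ ∧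
    copyMap H π i j l v₁ = w₁ ∧ copyMap H π i j l v₂ = w₂
  symm := ⟨fun _ _ ⟨l, v₁, v₂, h, h₁, h₂⟩ => ⟨l, v₂, v₁, h.symm, h₂, h₁⟩⟩
  loopless := ⟨by
    rintro w ⟨l, v₁, v₂, h, h₁, h₂⟩
    apply hπ _ _ h
    rw [← newPart_copyMap H π i j l v₁, ← newPart_copyMap H π i j l v₂, h₁, h₂]⟩

theorem copyMap_injective {ι : Type} (l : Line (EdgeT H π i j) ι) :
    Function.Injective (copyMap H π i j l) := by
  obtain ⟨n, hn⟩ := l.proper
  intro u v huv
  have hpart : π u = π v := by
    rw [← newPart_copyMap H π i j l u, ← newPart_copyMap H π i j l v, huv]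
  unfold copyMap at huv
  by_cases h1 : π u = i
  · rw [if_pos h1, if_pos (hpart ▸ h1)] at huv
    simp only [Sum.inl.injEq, Prod.mk.injEq, true_and] at huv
    simpa [hn] using congrFun huv n
  · by_cases h2 : π u = j
    · rw [if_neg h1, if_pos h2, if_neg (hpart ▸ h1), if_pos (hpart ▸ h2)] at huv
      simp only [Sum.inl.injEq, Prod.mk.injEq, true_and] at huv
      simpa [hn] using congrFun huv n
    · rw [if_neg h1, if_neg h2, if_neg (hpart ▸ h1), if_neg (hpart ▸ h2)] at huv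
      simpa using huv

theorem copyMap_eq_inr {ι : Type} (l l₂ : Line (EdgeT H π i j) ι) (v x : V)
    (hi : π v ≠ i) (hj : π v ≠ j)
    (h : copyMap H π i j l₂ x = copyMap H π i j l v) : l₂ = l ∧ x = v := by
  have hpart : π x = π v := by
    rw [← newPart_copyMap H π i j l₂ x, ← newPart_copyMap H π i j l v, h]
  unfold copyMap at h
  rw [if_neg hi, if_neg hj, if_neg (hpart ▸ hi), if_neg (hpart ▸ hj)] at h
  simpa using h

/-- Each copy is an induced subgraph of the new graph. -/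
theorem adj_of_newGraph_adj (hij : i ≠ j) (hπ : ∀ u v, H.Adj u v → π u ≠ π v) {ι : Type}
    (l : Line (EdgeT H π i j) ι) (v₁ v₂ : V)
    (h : (newGraph H π i j hπ ι).Adj (copyMap H π i j l v₁) (copyMap H π i j l v₂)) :
    H.Adj v₁ v₂ := by
  -- reduce to the case where the first vertex is in part `i` or both ...
  have key : ∀ (l₂ : Line (EdgeT H π i j) ι) (v₁ v₂ x₁ x₂ : V), H.Adj x₁ x₂ →
      copyMap H π i j l₂ x₁ = copyMap H π i j l v₁ →
      copyMap H π i j l₂ x₂ = copyMap H π i j l v₂ → π v₁ = i → π v₂ = j → H.Adj v₁ v₂ := by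
    intro l₂ v₁ v₂ x₁ x₂ hx h₁ h₂ hi hj
    have hp₁ : π x₁ = i := by
      rw [← newPart_copyMap H π i j l₂ x₁, h₁, newPart_copyMap, hi]
    have hp₂ : π x₂ = j := by
      rw [← newPart_copyMap H π i j l₂ x₂, h₂, newPart_copyMap, hj]
    have hji : j ≠ i := fun h => hij h.symm
    obtain ⟨n, hn⟩ := l.proper
    unfold copyMap at h₁ h₂
    rw [if_pos hp₁, if_pos hi] at h₁
    rw [if_neg (by rw [hp₂]; exact hji), if_pos hp₂, if_neg (by rw [hj]; exact hji),
      if_pos hj] at h₂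
    simp only [Sum.inl.injEq, Prod.mk.injEq, true_and] at h₁ h₂
    have e₁ := congrFun h₁ n
    have e₂ := congrFun h₂ n
    simp only [hn, Option.elim_none] at e₁ e₂
    rw [← e₁, ← e₂]
    cases hl : l₂.idxFun n with
    | none => simpa using hx
    | some e => simpa using e.2.1
  obtain ⟨l₂, x₁, x₂, hx, h₁, h₂⟩ := h
  have hp₁ : π x₁ = π v₁ := by
    rw [← newPart_copyMap H π i j l₂ x₁, h₁, newPart_copyMap]
  have hp₂ : π x₂ = π v₂ := by
    rw [← newPart_copyMap H π i j l₂ x₂, h₂, newPart_copyMap]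
  by_cases a₁ : π v₁ ≠ i ∧ π v₁ ≠ j
  · obtain ⟨rfl, rfl⟩ := copyMap_eq_inr H π i j l l₂ v₁ x₁ a₁.1 a₁.2 h₁
    rwa [← copyMap_injective H π i j _ h₂]
  by_cases a₂ : π v₂ ≠ i ∧ π v₂ ≠ j
  · obtain ⟨rfl, rfl⟩ := copyMap_eq_inr H π i j l l₂ v₂ x₂ a₂.1 a₂.2 h₂
    rwa [← copyMap_injective H π i j _ h₁]
  have b₁ : π v₁ = i ∨ π v₁ = j := by tauto
  have b₂ : π v₂ = i ∨ π v₂ = j := by tauto
  have hne : π v₁ ≠ π v₂ := by rw [← hp₁, ← hp₂]; exact hπ _ _ hx
  rcases b₁ with b₁ | b₁ <;> rcases b₂ with b₂ | b₂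
  · exact absurd (b₁.trans b₂.symm) hne
  · exact key l₂ v₁ v₂ x₁ x₂ hx h₁ h₂ b₁ b₂
  · exact (key l₂ v₂ v₁ x₂ x₁ hx.symm h₂ h₁ b₂ b₁).symm
  · exact absurd (b₁.trans b₂.symm) hne

theorem newGraph_cliqueFree (hij : i ≠ j) (hπ : ∀ u v, H.Adj u v → π u ≠ π v) {ι : Type}
    {k : ℕ} (hk : 3 ≤ k) (hH : H.CliqueFree k) : (newGraph H π i j hπ ι).CliqueFree k := by
  classical
  by_contra hcon
  let f := topEmbeddingOfNotCliqueFree hcon
  have hf : ∀ a b : Fin k, a ≠ b → (newGraph H π i j hπ ι).Adj (f a) (f b) := by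
    intro a b hab
    exact f.map_rel_iff.2 (by simpa using hab)
  have hnp : ∀ w₁ w₂, (newGraph H π i j hπ ι).Adj w₁ w₂ →
      newPart H π i j w₁ ≠ newPart H π i j w₂ := by
    rintro w₁ w₂ ⟨l, v₁, v₂, h, rfl, rfl⟩
    rw [newPart_copyMap, newPart_copyMap]
    exact hπ _ _ h
  have hinj : ∀ a b : Fin k, a ≠ b → newPart H π i j (f a) ≠ newPart H π i j (f b) :=
    fun a b hab => hnp _ _ (hf a b hab)
  -- a vertex outside the parts `i` and `j`
  have hex : ∃ a₀ : Fin k, newPart H π i j (f a₀) ≠ i ∧ newPart H π i j (f a₀) ≠ j := by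
    by_contra hno
    push Not at hno
    have h0 := hno ⟨0, by omega⟩
    have h1 := hno ⟨1, by omega⟩
    have h2 := hno ⟨2, by omega⟩
    have n01 := hinj ⟨0, by omega⟩ ⟨1, by omega⟩ (by simp)
    have n02 := hinj ⟨0, by omega⟩ ⟨2, by omega⟩ (by simp)
    have n12 := hinj ⟨1, by omega⟩ ⟨2, by omega⟩ (by simp)
    by_cases c0 : newPart H π i j (f ⟨0, by omega⟩) = i
    · have d1 := h1 (fun h => n01 (c0.trans h.symm))
      have d2 := h2 (fun h => n02 (c0.trans h.symm))
      exact n12 (d1.trans d2.symm)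
    · have d0 := h0 c0
      by_cases c1 : newPart H π i j (f ⟨1, by omega⟩) = i
      · have d2 := h2 (fun h => n12 (c1.trans h.symm))
        exact n02 (d0.trans d2.symm)
      · exact n01 (d0.trans (h1 c1).symm)
  obtain ⟨a₀, ha₀i, ha₀j⟩ := hex
  obtain ⟨a₁, ha₁⟩ : ∃ a₁ : Fin k, a₀ ≠ a₁ := by
    have : Nontrivial (Fin k) := Fin.nontrivial_iff_two_le.2 (by omega)
    obtain ⟨y, hy⟩ := exists_ne a₀
    exact ⟨y, hy.symm⟩
  obtain ⟨l, v₀, v₁, -, hv₀, -⟩ := hf a₀ a₁ ha₁
  have hπ₀ : newPart H π i j (f a₀) = π v₀ := by rw [← hv₀, newPart_copyMap]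
  rw [hπ₀] at ha₀i ha₀j
  have himg : ∀ b : Fin k, ∃ g, f b = copyMap H π i j l g := by
    intro b
    by_cases hb : a₀ = b
    · subst hb; exact ⟨v₀, hv₀.symm⟩
    · obtain ⟨l₂, x, y, -, hx, hy⟩ := hf a₀ b hb
      rw [← hv₀] at hx
      obtain ⟨rfl, -⟩ := copyMap_eq_inr H π i j l l₂ v₀ x ha₀i ha₀j hx
      exact ⟨y, hy.symm⟩
  choose g hg using himg
  have hg' : ∀ a b : Fin k, a ≠ b → H.Adj (g a) (g b) := by
    intro a b hab
    apply adj_of_newGraph_adj H π i j hij hπ l
    rw [← hg, ← hg]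
    exact hf a b hab
  have : (⊤ : SimpleGraph (Fin k)) ⊑ H := by
    refine ⟨⟨⟨g, fun {a b} hab => hg' a b (by simpa using hab)⟩, ?_⟩⟩
    intro a b hab
    by_contra hne
    exact (hg' a b hne).ne hab
  exact (not_cliqueFree_iff_top_isContained k).2 this hH

/-- The partite step. -/
theorem partite_step [Finite κ] [Finite V] (hij : i ≠ j) (hπ : ∀ u v, H.Adj u v → π u ≠ π v)
    {k : ℕ} (hk : 3 ≤ k) (hH : H.CliqueFree k) :
    ∃ (V' : Type) (_ : Finite V') (H' : SimpleGraph V') (π' : V' → Fin p),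
      (∀ u v, H'.Adj u v → π' u ≠ π' v) ∧ H'.CliqueFree k ∧
      ∀ c : V' → V' → κ, ∃ φ : V → V', (∀ u v, H.Adj u v → H'.Adj (φ u) (φ v)) ∧
        (∀ v, π' (φ v) = π v) ∧
        ∃ col, ∀ u v, H.Adj u v → π u = i → π v = j → c (φ u) (φ v) = col := by
  classical
  obtain ⟨ι, _, hι⟩ := Line.exists_mono_in_high_dimension (EdgeT H π i j) κ
  have hfin : Finite (Line (EdgeT H π i j) ι) := by
    apply Finite.of_injective (fun l : Line (EdgeT H π i j) ι => l.idxFun)
    intro l₁ l₂ h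
    exact Line.ext h
  refine ⟨NewV H π i j ι, inferInstance, newGraph H π i j hπ ι, newPart H π i j, ?_,
    newGraph_cliqueFree H π i j hij hπ hk hH, ?_⟩
  · rintro w₁ w₂ ⟨l, v₁, v₂, h, rfl, rfl⟩
    rw [newPart_copyMap, newPart_copyMap]
    exact hπ _ _ h
  · intro c
    obtain ⟨l, col, hl⟩ := hι (fun e => c (Sum.inl (i, fun n => (e n).1.1))
      (Sum.inl (j, fun n => (e n).1.2)))
    refine ⟨copyMap H π i j l, fun u v h => ⟨l, u, v, h, rfl, rfl⟩,
      newPart_copyMap H π i j l, col, ?_⟩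
    intro u v huv hu hv
    have h1 := hl ⟨(u, v), huv, hu, hv⟩
    rw [← h1]
    have hji : π v ≠ i := by rw [hv]; exact fun h => hij h.symm
    congr 1
    · unfold copyMap
      rw [if_pos hu]
      congr 2
      funext n
      simp only [Line.coe_apply]
      cases l.idxFun n <;> simp
    · unfold copyMap
      rw [if_neg hji, if_pos hv]
      congr 2
      funext n
      simp only [Line.coe_apply]
      cases l.idxFun n <;> simp

end step

/-- Iterating the partite step over a list of pairs of parts. -/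
theorem partite_iter (κ : Type) [Finite κ] {p k : ℕ} (hk : 3 ≤ k) (V : Type) [Finite V]
    (H : SimpleGraph V) (π : V → Fin p) (hπ : ∀ u v, H.Adj u v → π u ≠ π v)
    (hH : H.CliqueFree k) (T : List (Fin p × Fin p)) (hT : ∀ q ∈ T, q.1 ≠ q.2) :
    ∃ (V' : Type) (_ : Finite V') (H' : SimpleGraph V') (π' : V' → Fin p),
      (∀ u v, H'.Adj u v → π' u ≠ π' v) ∧ H'.CliqueFree k ∧
      ∀ c : V' → V' → κ, ∃ φ : V → V', (∀ u v, H.Adj u v → H'.Adj (φ u) (φ v)) ∧
        (∀ v, π' (φ v) = π v) ∧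
        ∀ q ∈ T, ∃ col, ∀ u v, H.Adj u v → π u = q.1 → π v = q.2 → c (φ u) (φ v) = col := by
  induction T with
  | nil =>
    exact ⟨V, inferInstance, H, π, hπ, hH, fun c => ⟨id, fun u v h => h, fun v => rfl,
      by simp⟩⟩
  | cons q T ih =>
    obtain ⟨V₁, _, H₁, π₁, hπ₁, hH₁, h₁⟩ := ih (fun q' hq' => hT q' (List.mem_cons_of_mem _ hq'))
    obtain ⟨V₂, hV₂, H₂, π₂, hπ₂, hH₂, h₂⟩ := partite_step (κ := κ) H₁ π₁ q.1 q.2
      (hT q List.mem_cons_self) hπ₁ hk hH₁
    refine ⟨V₂, hV₂, H₂, π₂, hπ₂, hH₂, fun c => ?_⟩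
    obtain ⟨φ₂, hφ₂, hφ₂π, col₂, hcol₂⟩ := h₂ c
    obtain ⟨φ₁, hφ₁, hφ₁π, hcol₁⟩ := h₁ (fun u v => c (φ₂ u) (φ₂ v))
    refine ⟨φ₂ ∘ φ₁, fun u v h => hφ₂ _ _ (hφ₁ _ _ h), fun v => ?_, fun q' hq' => ?_⟩
    · simp [hφ₂π, hφ₁π]
    · rcases List.mem_cons.1 hq' with rfl | hq'
      · exact ⟨col₂, fun u v huv hu hv => hcol₂ _ _ (hφ₁ _ _ huv) (by rw [hφ₁π, hu])
          (by rw [hφ₁π, hv])⟩
      · exact hcol₁ q' hq'

/-- **Folkman / Nesetril-Rodl theorem for cliques.** For every `n ≥ 2` and every finite colour set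
there is a finite `K_{n+1}`-free graph such that for every colouring of the ordered pairs of
vertices there is an (ordered) clique of size `n` all of whose increasing pairs have the same
colour. -/
theorem folkman_cliques (κ : Type) [Finite κ] [Nonempty κ] (n : ℕ) (hn : 2 ≤ n) :
    ∃ (V : Type) (_ : Finite V) (H : SimpleGraph V), H.CliqueFree (n + 1) ∧
      ∀ c : V → V → κ, ∃ (f : Fin n → V) (col : κ),
        (∀ i j, i ≠ j → H.Adj (f i) (f j)) ∧ ∀ i j, i < j → c (f i) (f j) = col := by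
  classical
  have := Fintype.ofFinite κ
  obtain ⟨p, hp⟩ := ramsey_pairs κ n
  -- the starting system: one copy of `K_n` for each increasing map `Fin n → Fin p`
  let V₀ : Type := {σ : Fin n → Fin p // StrictMono σ} × Fin n
  let H₀ : SimpleGraph V₀ :=
    { Adj := fun a b => a.1 = b.1 ∧ a.2 ≠ b.2
      symm := ⟨fun a b h => ⟨h.1.symm, h.2.symm⟩⟩
      loopless := ⟨fun a h => h.2 rfl⟩ }
  let π₀ : V₀ → Fin p := fun a => a.1.1 a.2
  have hπ₀ : ∀ u v, H₀.Adj u v → π₀ u ≠ π₀ v := by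
    rintro ⟨σ, a⟩ ⟨σ', b⟩ ⟨h1, h2⟩
    simp only at h1 h2
    subst h1
    exact fun h => h2 (σ.2.injective h)
  have hH₀ : H₀.CliqueFree (n + 1) := by
    intro s hs
    have hs' := hs
    rw [isNClique_iff] at hs'
    have hinj : Set.InjOn (fun v : V₀ => v.2) (s : Set V₀) := by
      intro a ha b hb hab
      by_contra hne
      exact (hs'.1 ha hb hne).2 hab
    have hcard : s.card ≤ (Finset.univ : Finset (Fin n)).card :=
      Finset.card_le_card_of_injOn (fun v : V₀ => v.2) (fun _ _ => Finset.mem_univ _) hinj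
    rw [hs'.2, Finset.card_univ, Fintype.card_fin] at hcard
    omega
  obtain ⟨V', hV', H', π', hπ', hH', h'⟩ := partite_iter κ (by omega : 3 ≤ n + 1) V₀ H₀ π₀ hπ₀ hH₀
    (((Finset.univ : Finset (Fin p × Fin p)).filter (fun q => q.1 ≠ q.2)).toList)
    (by intro q hq; simpa using hq)
  refine ⟨V', hV', H', hH', fun c => ?_⟩
  obtain ⟨φ, hφ, hφπ, hcol⟩ := h' c
  have hcol' : ∀ a b : Fin p, ∃ col : κ, a ≠ b → ∀ u v, H₀.Adj u v → π₀ u = a → π₀ v = b →
      c (φ u) (φ v) = col := by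
    intro a b
    by_cases hab : a = b
    · exact ⟨Classical.arbitrary κ, fun h => absurd hab h⟩
    · obtain ⟨col, hc⟩ := hcol (a, b) (by simpa using hab)
      exact ⟨col, fun _ => hc⟩
  choose d hd using hcol'
  obtain ⟨σ, col, hσ, hσc⟩ := hp d
  refine ⟨fun a => φ (⟨σ, hσ⟩, a), col, fun a b hab => hφ _ _ ⟨rfl, hab⟩, fun a b hab => ?_⟩
  rw [← hσc a b hab]
  exact hd (σ a) (σ b) (fun h => hab.ne (hσ.injective h)) _ _ ⟨rfl, hab.ne⟩ rfl rfl

end Pool.Agent.Lib.MP_e8016c
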