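import Mathlib
import Pool.Agent.Lib.MP_e8016c.Basic
import Pool.Agent.Lib.MP_e8016c.Folkman
import Pool.Agent.Lib.MP_e8016c.Indep

/-!
# The quadratic upper bound on `g(k)`
-/

namespace Pool.Agent.Lib.MP_e8016c

open SimpleGraph

section pattern

variable {m g : ℕ}

/-- The red relation of the pattern `(e, M)` on `m + 1` tiles of size `g`. -/
def patRed (e M : Fin g → Fin g → Prop) (x y : Fin (m + 1) × Fin g) : Prop :=
  (x.1 = y.1 ∧ e x.2 y.2) ∨ (x.1 < y.1 ∧ M x.2 y.2) ∨ (y.1 < x.1 ∧ M y.2 x.2)

theorem patRed_compl (e M : Fin g → Fin g → Prop) (x y : Fin (m + 1) × Fin g) :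
    patRed (fun a b => ¬ e a b) (fun a b => ¬ M a b) x y ↔ ¬ patRed e M x y := by
  unfold patRed
  rcases lt_trichotomy x.1 y.1 with h | h | h
  · simp [h, h.ne, h.not_gt]
  · simp [h]
  · simp [h, h.ne', h.not_gt]

theorem patRed_symm {e M : Fin g → Fin g → Prop} (he : ∀ a b, e a b → e b a)
    {x y : Fin (m + 1) × Fin g} (h : patRed e M x y) : patRed e M y x := by
  unfold patRed at h ⊢
  rcases h with h | h | h
  · exact Or.inl ⟨h.1.symm, he _ _ h.2⟩
  · exact Or.inr (Or.inr h)
  · exact Or.inr (Or.inl h)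

/-- A pattern has a monochromatic clique of size `m + 2`. -/
def HasMono (m : ℕ) {g : ℕ} (e M : Fin g → Fin g → Prop) : Prop :=
  ∃ s : Finset (Fin (m + 1) × Fin g), s.card = m + 2 ∧
    ((∀ x ∈ s, ∀ y ∈ s, x ≠ y → patRed e M x y) ∨ (∀ x ∈ s, ∀ y ∈ s, x ≠ y → ¬ patRed e M x y))

theorem HasMono.compl {e M : Fin g → Fin g → Prop}
    (h : HasMono m (fun a b => ¬ e a b) (fun a b => ¬ M a b)) : HasMono m e M := by
  obtain ⟨s, hs, h | h⟩ := h
  · exact ⟨s, hs, Or.inr fun x hx y hy hxy => (patRed_compl e M x y).1 (h x hx y hy hxy)⟩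
  · refine ⟨s, hs, Or.inl fun x hx y hy hxy => ?_⟩
    have := h x hx y hy hxy
    rw [patRed_compl] at this
    exact not_not.1 this

/-- A clique of size `m + 2` inside one tile. -/
theorem hasMono_of_tile {e M : Fin g → Fin g → Prop} (T : Finset (Fin g)) (hT : T.card = m + 2)
    (h : (∀ a ∈ T, ∀ b ∈ T, a ≠ b → e a b) ∨ (∀ a ∈ T, ∀ b ∈ T, a ≠ b → ¬ e a b)) :
    HasMono m e M := by
  classical
  let F : Fin g ↪ Fin (m + 1) × Fin g := ⟨fun a => (0, a), fun a b hab => by simpa using hab⟩
  refine ⟨T.map F, by rw [Finset.card_map, hT], ?_⟩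
  rcases h with h | h
  · left
    intro x hx y hy hxy
    obtain ⟨a, ha, rfl⟩ := Finset.mem_map.1 hx
    obtain ⟨b, hb, rfl⟩ := Finset.mem_map.1 hy
    exact Or.inl ⟨rfl, h a ha b hb (fun hab => hxy (by rw [hab]))⟩
  · right
    intro x hx y hy hxy
    obtain ⟨a, ha, rfl⟩ := Finset.mem_map.1 hx
    obtain ⟨b, hb, rfl⟩ := Finset.mem_map.1 hy
    have h1 := h a ha b hb (fun hab => hxy (by rw [hab]))
    rintro (h2 | h2 | h2)
    · exact h1 h2.2
    · exact absurd h2.1 (lt_irrefl _)
    · exact absurd h2.1 (lt_irrefl _)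

/-- The red clique `(0,a), …, (m-1,a), (m,b), (m,c)`. -/
theorem hasMono_of_column {e M : Fin g → Fin g → Prop} (he : ∀ a b, e a b → e b a)
    (a b c : Fin g) (haa : M a a) (hab : M a b) (hac : M a c) (hbc : b ≠ c) (hebc : e b c) :
    HasMono m e M := by
  classical
  let F : Option (Fin (m + 1)) → Fin (m + 1) × Fin g := fun o =>
    o.elim (Fin.last m, c) (fun i => if i = Fin.last m then (i, b) else (i, a))
  have hF1 : ∀ i : Fin (m + 1), (F (some i)).1 = i := by
    intro i; simp only [F, Option.elim_some]; split_ifs <;> rfl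
  have hFinj : Function.Injective F := by
    intro o o' h
    cases o with
    | none =>
      cases o' with
      | none => rfl
      | some i =>
        exfalso
        have h1 : (F none).1 = (F (some i)).1 := by rw [h]
        rw [hF1] at h1
        have h2 : i = Fin.last m := h1.symm
        subst h2
        simp only [F, Option.elim_none, Option.elim_some, if_true, Prod.mk.injEq, true_and] at h
        exact hbc h.symm
    | some i =>
      cases o' with
      | none =>
        exfalso
        have h1 : (F (some i)).1 = (F none).1 := by rw [h]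
        rw [hF1] at h1
        have h2 : i = Fin.last m := h1
        subst h2
        simp only [F, Option.elim_none, Option.elim_some, if_true, Prod.mk.injEq, true_and] at h
        exact hbc h
      | some j =>
        have h1 : (F (some i)).1 = (F (some j)).1 := by rw [h]
        rw [hF1, hF1] at h1
        rw [h1]
  have key : ∀ i j : Fin (m + 1), i < j → patRed e M (F (some i)) (F (some j)) := by
    intro i j hij
    have hi : i ≠ Fin.last m := (lt_of_lt_of_le hij (Fin.le_last j)).ne
    refine Or.inr (Or.inl ⟨by rw [hF1, hF1]; exact hij, ?_⟩)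
    simp only [F, Option.elim_some, if_neg hi]
    split_ifs
    · exact hab
    · exact haa
  have key2 : ∀ i : Fin (m + 1), patRed e M (F (some i)) (F none) := by
    intro i
    by_cases hi : i = Fin.last m
    · subst hi
      refine Or.inl ⟨by rw [hF1]; rfl, ?_⟩
      simpa [F] using hebc
    · refine Or.inr (Or.inl ⟨?_, ?_⟩)
      · rw [hF1]; exact lt_of_le_of_ne (Fin.le_last i) hi
      · simpa [F, hi] using hac
  refine ⟨Finset.univ.map ⟨F, hFinj⟩, by simp, Or.inl ?_⟩
  intro x hx y hy hxy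
  obtain ⟨o, -, rfl⟩ := Finset.mem_map.1 hx
  obtain ⟨o', -, rfl⟩ := Finset.mem_map.1 hy
  simp only [Function.Embedding.coeFn_mk] at hxy ⊢
  cases o with
  | none =>
    cases o' with
    | none => exact absurd rfl hxy
    | some j => exact patRed_symm he (key2 j)
  | some i =>
    cases o' with
    | none => exact key2 i
    | some j =>
      rcases lt_trichotomy i j with h | h | h
      · exact key i j h
      · subst h; exact absurd rfl hxy
      · exact patRed_symm he (key j i h)

/-- A set `Q` of `m + 2` labels with blue `M` everywhere gives a monochromatic clique. -/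
theorem hasMono_of_indep {e M : Fin g → Fin g → Prop} (he : ∀ a b, e a b → e b a)
    (Q : Finset (Fin g)) (hQ : Q.card = m + 2) (hM : ∀ a ∈ Q, ∀ b ∈ Q, a ≠ b → ¬ M a b) :
    HasMono m e M := by
  classical
  by_cases hall : ∀ a ∈ Q, ∀ b ∈ Q, a ≠ b → e a b
  · exact hasMono_of_tile Q hQ (Or.inl hall)
  push Not at hall
  obtain ⟨a₁, ha₁, a₂, ha₂, hne, hna⟩ := hall
  set Q' := (Q.erase a₁).erase a₂ with hQ'
  have hcard : Q'.card = m := by
    rw [hQ', Finset.card_erase_of_mem (Finset.mem_erase.2 ⟨hne.symm, ha₂⟩),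
      Finset.card_erase_of_mem ha₁, hQ]
    omega
  let E := Q'.equivFinOfCardEq hcard
  let pos : Fin g → Fin (m + 1) := fun a => if h : a ∈ Q' then (E ⟨a, h⟩).succ else 0
  have hpos : ∀ a ∈ Q, ∀ b ∈ Q, a ≠ b → pos a = pos b → ¬ e a b := by
    intro a ha b hb hab hp
    by_cases h1 : a ∈ Q'
    · by_cases h2 : b ∈ Q'
      · simp only [pos, dif_pos h1, dif_pos h2, Fin.succ_inj] at hp
        have := E.injective hp
        exact absurd (Subtype.ext_iff.1 this) hab
      · simp only [pos, dif_pos h1, dif_neg h2] at hp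
        exact absurd hp (Fin.succ_ne_zero _)
    · by_cases h2 : b ∈ Q'
      · simp only [pos, dif_neg h1, dif_pos h2] at hp
        exact absurd hp.symm (Fin.succ_ne_zero _)
      · simp only [hQ', Finset.mem_erase, not_and] at h1 h2
        have e1 : a = a₂ ∨ a = a₁ := by
          by_contra hcon
          push Not at hcon
          exact h1 hcon.1 hcon.2 ha
        have e2 : b = a₂ ∨ b = a₁ := by
          by_contra hcon
          push Not at hcon
          exact h2 hcon.1 hcon.2 hb
        rcases e1 with rfl | rfl <;> rcases e2 with rfl | rfl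
        · exact absurd rfl hab
        · exact fun h => hna (he _ _ h)
        · exact hna
        · exact absurd rfl hab
  let F : Fin g ↪ Fin (m + 1) × Fin g := ⟨fun a => (pos a, a), fun a b hab => by
    simpa using (Prod.ext_iff.1 hab).2⟩
  refine ⟨Q.map F, by rw [Finset.card_map, hQ], Or.inr ?_⟩
  intro x hx y hy hxy
  obtain ⟨a, ha, rfl⟩ := Finset.mem_map.1 hx
  obtain ⟨b, hb, rfl⟩ := Finset.mem_map.1 hy
  have hab : a ≠ b := fun h => hxy (by rw [h])
  rintro (h | h | h)
  · exact hpos a ha b hb hab h.1 h.2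
  · exact hM a ha b hb hab h.2
  · exact hM b hb a ha hab.symm h.2

/-- One-sided version: many labels with red diagonal. -/
theorem hasMono_of_diag {e M : Fin g → Fin g → Prop} (he : ∀ a b, e a b → e b a)
    (D : Finset (Fin g)) (hD : ∀ a ∈ D, M a a) (hcard : (m + 1) * (2 * m + 1) < D.card) :
    HasMono m e M := by
  classical
  by_cases hbig : ∃ a ∈ D, m + 2 ≤ (D.filter (fun b => b = a ∨ M a b)).card
  · obtain ⟨a, ha, hcard'⟩ := hbig
    obtain ⟨T, hT, hTc⟩ := Finset.exists_subset_card_eq hcard'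
    by_cases hall : ∀ b ∈ T, ∀ c ∈ T, b ≠ c → ¬ e b c
    · exact hasMono_of_tile T hTc (Or.inr hall)
    push Not at hall
    obtain ⟨b, hb, c, hc, hbc, hebc⟩ := hall
    have h1 : ∀ b ∈ T, M a b := by
      intro b hb
      have := hT hb
      rw [Finset.mem_filter] at this
      rcases this.2 with rfl | h
      · exact hD _ ha
      · exact h
    exact hasMono_of_column he a b c (hD a ha) (h1 b hb) (h1 c hc) hbc hebc
  · push Not at hbig
    have hout : ∀ a ∈ D, (D.filter (fun b => b ≠ a ∧ M a b)).card ≤ m := by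
      intro a ha
      have h1 := hbig a ha
      have h2 : D.filter (fun b => b ≠ a ∧ M a b) ⊆ (D.filter (fun b => b = a ∨ M a b)).erase a := by
        intro b hb
        rw [Finset.mem_filter] at hb
        rw [Finset.mem_erase, Finset.mem_filter]
        exact ⟨hb.2.1, hb.1, Or.inr hb.2.2⟩
      have h3 := Finset.card_le_card h2
      rw [Finset.card_erase_of_mem (Finset.mem_filter.2 ⟨ha, Or.inl rfl⟩)] at h3
      omega
    obtain ⟨Q, -, hQ, hind⟩ := exists_indep_of_outdegree M m (m + 2) D
      (fun a ha => by convert hout a ha) (by nlinarith)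
    exact hasMono_of_indep he Q hQ hind

/-- **Pattern lemma.** If `g > 2 (m+1) (2m+1)` then every pattern on `m + 1` tiles of size `g`
has a monochromatic clique of size `m + 2`. -/
theorem hasMono_pattern (e M : Fin g → Fin g → Prop) (he : ∀ a b, e a b → e b a)
    (hg : 2 * ((m + 1) * (2 * m + 1)) < g) : HasMono m e M := by
  classical
  have hsplit := Finset.card_filter_add_card_filter_not (s := (Finset.univ : Finset (Fin g)))
    (fun a => M a a)
  rw [Finset.card_univ, Fintype.card_fin] at hsplit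
  by_cases h : (m + 1) * (2 * m + 1) < (Finset.univ.filter (fun a : Fin g => M a a)).card
  · exact hasMono_of_diag he _ (fun a ha => (Finset.mem_filter.1 ha).2) h
  · apply HasMono.compl
    refine hasMono_of_diag (fun a b h h' => h (he _ _ h'))
      (Finset.univ.filter (fun a : Fin g => ¬ M a a)) (fun a ha => (Finset.mem_filter.1 ha).2) ?_
    omega

end pattern

/-- The blow-up (lexicographic product) `H[K_g]`. -/
def blowup {V : Type} (H : SimpleGraph V) (g : ℕ) : SimpleGraph (V × Fin g) where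
  Adj x y := H.Adj x.1 y.1 ∨ (x.1 = y.1 ∧ x.2 ≠ y.2)
  symm := ⟨fun x y h => by
    rcases h with h | h
    · exact Or.inl h.symm
    · exact Or.inr ⟨h.1.symm, h.2.symm⟩⟩
  loopless := ⟨fun x h => by
    rcases h with h | h
    · exact H.loopless.irrefl _ h
    · exact h.2 rfl⟩

/-- The blow-up of a suitable Folkman graph arrows `K_{m+2}`. -/
theorem exists_blowup_arrows (m g : ℕ) (hm : 2 ≤ m) (hg : 2 * ((m + 1) * (2 * m + 1)) < g) :
    ∃ (V : Type) (_ : Finite V) (H : SimpleGraph V), H.CliqueFree (m + 2) ∧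
      Arrows (blowup H g) (K (m + 2)) := by
  classical
  let κ : Type := Set (Fin g × Fin g) × Set (Fin g × Fin g) × Set (Fin g × Fin g)
  obtain ⟨V, hV, H, hH, hmono⟩ := folkman_cliques κ (m + 1) (by omega)
  refine ⟨V, hV, H, hH, fun R hR => ?_⟩
  obtain ⟨f, ⟨M, e₁, e₂⟩, hf, hfc'⟩ := hmono (fun u v =>
    ({q | R.Adj (u, q.1) (v, q.2)}, {q | R.Adj (u, q.1) (u, q.2)},
      {q | R.Adj (v, q.1) (v, q.2)}))
  have hfc : ∀ i j : Fin (m + 1), i < j →
      {q : Fin g × Fin g | R.Adj (f i, q.1) (f j, q.2)} = M ∧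
      {q : Fin g × Fin g | R.Adj (f i, q.1) (f i, q.2)} = e₁ ∧
      {q : Fin g × Fin g | R.Adj (f j, q.1) (f j, q.2)} = e₂ := by
    intro i j hij
    have h := hfc' i j hij
    exact ⟨congrArg (fun t : κ => t.1) h, congrArg (fun t : κ => t.2.1) h,
      congrArg (fun t : κ => t.2.2) h⟩
  -- all tiles have the same internal colouring
  have he : ∀ i : Fin (m + 1), {q : Fin g × Fin g | R.Adj (f i, q.1) (f i, q.2)} = e₁ := by
    have h12 : e₁ = e₂ := by
      have h1 := (hfc ⟨1, by omega⟩ ⟨2, by omega⟩ (by simp)).2.1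
      have h2 := (hfc ⟨0, by omega⟩ ⟨1, by omega⟩ (by simp [Fin.lt_def])).2.2
      rw [← h1, ← h2]
    intro i
    by_cases hi : i = Fin.last m
    · subst hi
      rw [h12]
      exact (hfc ⟨0, by omega⟩ (Fin.last m) (by simp [Fin.lt_def]; omega)).2.2
    · exact (hfc i (Fin.last m) (lt_of_le_of_ne (Fin.le_last i) hi)).2.1
  have hMM : ∀ i j : Fin (m + 1), i < j → ∀ a b, R.Adj (f i, a) (f j, b) ↔ (a, b) ∈ M := by
    intro i j hij a b
    rw [← (hfc i j hij).1]
    rfl
  have hee : ∀ i : Fin (m + 1), ∀ a b, R.Adj (f i, a) (f i, b) ↔ (a, b) ∈ e₁ := by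
    intro i a b
    rw [← he i]
    rfl
  have hesymm : ∀ a b : Fin g, (a, b) ∈ e₁ → (b, a) ∈ e₁ := by
    intro a b h
    rw [← hee 0] at h ⊢
    exact h.symm
  obtain ⟨s, hs, hmonoS⟩ := hasMono_pattern (m := m) (fun a b => (a, b) ∈ e₁)
    (fun a b => (a, b) ∈ M) hesymm hg
  have hfinj : Function.Injective f := by
    intro i j hij
    by_contra hne
    exact (hf i j hne).ne hij
  let F : Fin (m + 1) × Fin g ↪ V × Fin g := ⟨fun x => (f x.1, x.2), fun x y h => by
    simp only [Prod.mk.injEq] at h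
    exact Prod.ext (hfinj h.1) h.2⟩
  have hred : ∀ x y : Fin (m + 1) × Fin g, patRed (fun a b => (a, b) ∈ e₁) (fun a b => (a, b) ∈ M)
      x y ↔ R.Adj (F x) (F y) := by
    intro x y
    rcases lt_trichotomy x.1 y.1 with h | h | h
    · simp only [patRed, h.ne, false_and, h, true_and, h.not_gt, false_or, or_false]
      exact (hMM _ _ h _ _).symm
    · simp only [patRed, h, lt_irrefl, false_and, true_and, or_false]
      rw [← hee y.1]
      show _ ↔ R.Adj (f x.1, x.2) (f y.1, y.2)
      rw [h]
    · simp only [patRed, h.ne', false_and, h, true_and, h.not_gt, false_or]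
      rw [← hMM _ _ h]
      exact ⟨fun h => h.symm, fun h => h.symm⟩
  have hGadj : ∀ x y : Fin (m + 1) × Fin g, x ≠ y → (blowup H g).Adj (F x) (F y) := by
    intro x y hxy
    by_cases h : x.1 = y.1
    · right
      refine ⟨by show f x.1 = f y.1; rw [h], fun h2 => hxy (Prod.ext h h2)⟩
    · left
      exact hf _ _ h
  have hcard : (s.map F).card = m + 2 := by rw [Finset.card_map, hs]
  rcases hmonoS with hr | hb
  · left
    rw [K_isContained_iff]
    intro hfree
    refine hfree (s.map F) ⟨?_, hcard⟩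
    intro x hx y hy hxy
    obtain ⟨x', hx', rfl⟩ := Finset.mem_map.1 (Finset.mem_coe.1 hx)
    obtain ⟨y', hy', rfl⟩ := Finset.mem_map.1 (Finset.mem_coe.1 hy)
    exact (hred x' y').1 (hr x' hx' y' hy' (fun h => hxy (by rw [h])))
  · right
    rw [K_isContained_iff]
    intro hfree
    refine hfree (s.map F) ⟨?_, hcard⟩
    intro x hx y hy hxy
    obtain ⟨x', hx', rfl⟩ := Finset.mem_map.1 (Finset.mem_coe.1 hx)
    obtain ⟨y', hy', rfl⟩ := Finset.mem_map.1 (Finset.mem_coe.1 hy)
    have hne : x' ≠ y' := fun h => hxy (by rw [h])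
    rw [SimpleGraph.sdiff_adj]
    exact ⟨hGadj x' y' hne, fun h => hb x' hx' y' hy' hne ((hred x' y').2 h)⟩

/-- The blow-up `H[K_g]` of a `K_k`-free graph does not arrow `K_k + K_{1,g'}` for `g' ≥ g`. -/
theorem not_arrows_blowup {V : Type} (H : SimpleGraph V) (k g g' : ℕ) (hH : H.CliqueFree k)
    (hg : g ≤ g') : ¬ Arrows (blowup H g) (KStar k g') := by
  classical
  intro hA
  let R : SimpleGraph (V × Fin g) := H.comap Prod.fst
  have hR : R ≤ blowup H g := by
    intro x y h
    exact Or.inl h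
  have hRfree : R.CliqueFree k := by
    intro s hs
    rw [isNClique_iff] at hs
    have hinj : Set.InjOn Prod.fst (s : Set (V × Fin g)) := by
      intro a ha b hb hab
      by_contra hne
      exact (show H.Adj a.1 b.1 from hs.1 ha hb hne).ne hab
    refine hH (s.image Prod.fst) ⟨?_, by rw [Finset.card_image_of_injOn hinj, hs.2]⟩
    intro x hx y hy hxy
    obtain ⟨x', hx', rfl⟩ := Finset.mem_image.1 (Finset.mem_coe.1 hx)
    obtain ⟨y', hy', rfl⟩ := Finset.mem_image.1 (Finset.mem_coe.1 hy)
    exact hs.1 hx' hy' (fun h => hxy (by rw [h]))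
  rcases hA R hR with h | h
  · exact (K_isContained_iff R k).1 ((K_le_KStar k g').trans h) hRfree
  · obtain ⟨φ⟩ := h
    set c := φ (Sum.inr (Sum.inl 0)) with hc
    have hleaf : ∀ j : Fin g', (φ (Sum.inr (Sum.inr j))).1 = c.1 ∧
        (φ (Sum.inr (Sum.inr j))).2 ≠ c.2 := by
      intro j
      have hadj : (KStar k g').Adj (Sum.inr (Sum.inl 0)) (Sum.inr (Sum.inr j)) := by
        simp
      have h1 : (blowup H g \ R).Adj c (φ (Sum.inr (Sum.inr j))) := φ.toHom.map_adj hadj
      rw [SimpleGraph.sdiff_adj] at h1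
      rcases h1.1 with h2 | h2
      · exact absurd h2 h1.2
      · exact ⟨h2.1.symm, h2.2.symm⟩
    have hinj : Function.Injective (fun j : Fin g' => (φ (Sum.inr (Sum.inr j))).2) := by
      intro i j hij
      have h1 : φ (Sum.inr (Sum.inr i)) = φ (Sum.inr (Sum.inr j)) :=
        Prod.ext ((hleaf i).1.trans (hleaf j).1.symm) hij
      have := φ.injective h1
      simpa using this
    have hcard : (Finset.univ.image (fun j : Fin g' => (φ (Sum.inr (Sum.inr j))).2)).card
        ≤ ((Finset.univ : Finset (Fin g)).erase c.2).card := by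
      apply Finset.card_le_card
      intro x hx
      obtain ⟨j, -, rfl⟩ := Finset.mem_image.1 hx
      exact Finset.mem_erase.2 ⟨(hleaf j).2, Finset.mem_univ _⟩
    rw [Finset.card_image_of_injective _ hinj, Finset.card_erase_of_mem (Finset.mem_univ _),
      Finset.card_univ, Finset.card_univ, Fintype.card_fin, Fintype.card_fin] at hcard
    have : 0 < g := lt_of_le_of_lt (Nat.zero_le _) c.2.isLt
    omega

/-- **Upper bound.** For `k ≥ 4`, the graphs `K_k` and `K_k + K_{1,g}` are not Ramsey-equivalent as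
soon as `g > 2 (k-1) (2k-3)`. -/
theorem not_ramseyEquiv_of_large (k g : ℕ) (hk : 4 ≤ k) (hg : 2 * ((k - 1) * (2 * k - 3)) < g) :
    ¬ RamseyEquiv (K k) (KStar k g) := by
  intro hE
  obtain ⟨m, rfl⟩ : ∃ m, k = m + 2 := ⟨k - 2, by omega⟩
  have h1 : m + 2 - 1 = m + 1 := by omega
  have h2 : 2 * (m + 2) - 3 = 2 * m + 1 := by omega
  rw [h1, h2] at hg
  obtain ⟨V, hV, H, hH, hA⟩ := exists_blowup_arrows m g (by omega) hg
  exact not_arrows_blowup H (m + 2) g g hH le_rfl ((hE (V × Fin g) (blowup H g)).1 hA)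

end Pool.Agent.Lib.MP_e8016c
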