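import Mathlib
import Pool.Agent.Lib.MP_e8016c.Upper
import Pool.Agent.Lib.MP_e8016c.Lower

/-!
# The two-sided bound on `g(k)`
-/

namespace Pool.Agent.Lib.MP_e8016c

open SimpleGraph Finset

/-- `K_k` and `K_k + K_{1,0}` are Ramsey-equivalent for `k ≥ 3`. -/
theorem zero_mem_goodStars (k : ℕ) (hk : 3 ≤ k) : 0 ∈ goodStars k := by
  classical
  intro V _ G
  have := Fintype.ofFinite V
  constructor
  swap
  · exact fun hG => arrows_of_isContained (K_le_KStar k 0) hG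
  intro hG
  have hclique : ∀ H : SimpleGraph V, K k ⊑ H → ∃ S : Finset V, H.IsNClique k S := by
    intro H hH
    have h1 := (K_isContained_iff H k).1 hH
    unfold CliqueFree at h1
    push Not at h1
    exact h1
  -- `V` has more than `k` vertices
  have hcard : k < Fintype.card V := by
    by_contra hcon
    push Not at hcon
    -- colour a single edge at one vertex red
    obtain ⟨S, hS⟩ : ∃ S : Finset V, G.IsNClique k S := by
      rcases hG ⊥ bot_le with h | h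
      · obtain ⟨S, hS⟩ := hclique _ h
        exact ⟨S, hS.mono bot_le⟩
      · obtain ⟨S, hS⟩ := hclique _ h
        exact ⟨S, hS.mono sdiff_le⟩
    rw [isNClique_iff] at hS
    have hSu : S = univ := eq_univ_of_card S (le_antisymm (card_le_univ S) (by rw [hS.2]; exact hcon))
    obtain ⟨a, b, ha, hb, hab⟩ := one_lt_card_iff.1 (by rw [hS.2]; omega : 1 < S.card)
    obtain ⟨c, hc, hca, hcb⟩ : ∃ c ∈ S, c ≠ a ∧ c ≠ b := by
      by_contra hno
      push Not at hno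
      have : S ⊆ {a, b} := by
        intro c hc
        rw [mem_insert, mem_singleton]
        by_cases h : c = a
        · exact Or.inl h
        · exact Or.inr (hno c hc h)
      have := (card_le_card this).trans card_le_two
      omega
    let R : SimpleGraph V :=
      { Adj := fun u v => G.Adj u v ∧ ((u = a ∧ v = b) ∨ (u = b ∧ v = a))
        symm := ⟨fun u v h => ⟨h.1.symm, h.2.elim (fun h => Or.inr ⟨h.2, h.1⟩)
          (fun h => Or.inl ⟨h.2, h.1⟩)⟩⟩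
        loopless := ⟨fun u h => G.loopless.irrefl u h.1⟩ }
    have huniv : ∀ T : Finset V, T.card = k → T = univ := fun T hT =>
      eq_univ_of_card T (le_antisymm (card_le_univ T) (by rw [hT]; exact hcon))
    rcases hG R (fun u v h => h.1) with h | h
    · obtain ⟨T, hT⟩ := hclique _ h
      rw [isNClique_iff] at hT
      have hTu := huniv T hT.2
      have h1 := hT.1 (show c ∈ (T : Set V) by rw [hTu]; simp)
        (show a ∈ (T : Set V) by rw [hTu]; simp) hca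
      rcases h1.2 with h2 | h2
      · exact hca h2.1
      · exact hcb h2.1
    · obtain ⟨T, hT⟩ := hclique _ h
      rw [isNClique_iff] at hT
      have hTu := huniv T hT.2
      have h1 := hT.1 (show a ∈ (T : Set V) by rw [hTu]; simp)
        (show b ∈ (T : Set V) by rw [hTu]; simp) hab
      rw [sdiff_adj] at h1
      exact h1.2 ⟨h1.1, Or.inl ⟨rfl, rfl⟩⟩
  have key : ∀ H : SimpleGraph V, K k ⊑ H → KStar k 0 ⊑ H := by
    intro H hH
    obtain ⟨S, hS⟩ := hclique H hH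
    have hne : ∃ v, v ∉ S := by
      by_contra hno
      push Not at hno
      have : S = univ := eq_univ_of_forall hno
      rw [isNClique_iff, this, card_univ] at hS
      omega
    obtain ⟨v, hv⟩ := hne
    exact kStar_isContained hS hv (W := ∅) (by simp) (by simp)
  intro R hR
  rcases hG R hR with h | h
  · exact Or.inl (key R h)
  · exact Or.inr (key _ h)

theorem goodStars_bdd (k : ℕ) (hk : 4 ≤ k) :
    ∀ g ∈ goodStars k, g ≤ 2 * ((k - 1) * (2 * k - 3)) := by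
  intro g hg
  by_contra hcon
  push Not at hcon
  exact not_ramseyEquiv_of_large k g hk hcon hg

theorem isGreatest_gMax (k : ℕ) (hk : 4 ≤ k) : IsGreatest (goodStars k) (gMax k) := by
  have hbdd : BddAbove (goodStars k) := ⟨_, fun g hg => goodStars_bdd k hk g hg⟩
  exact ⟨Nat.sSup_mem ⟨0, zero_mem_goodStars k (by omega)⟩ hbdd, fun g hg => le_csSup hbdd hg⟩

theorem gMax_le (k : ℕ) (hk : 4 ≤ k) : gMax k ≤ 2 * ((k - 1) * (2 * k - 3)) :=
  goodStars_bdd k hk _ (isGreatest_gMax k hk).1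

/-- The explicit lower bound. -/
theorem le_gMax (ℓ k : ℕ) (hℓ : 2 ≤ ℓ) (hk : 2 ^ 19 * ℓ ^ 8 * 2 ^ ℓ ≤ k) :
    4 ^ (ℓ - 1) ≤ gMax k := by
  have hk4 : 4 ≤ k := by
    have h8 : 1 ≤ ℓ ^ 8 * 2 ^ ℓ := Nat.one_le_iff_ne_zero.2 (by positivity)
    have : 524288 * (ℓ ^ 8 * 2 ^ ℓ) ≤ k := by
      calc 524288 * (ℓ ^ 8 * 2 ^ ℓ) = 2 ^ 19 * ℓ ^ 8 * 2 ^ ℓ := by ring
        _ ≤ k := hk
    omega
  exact (isGreatest_gMax k hk4).2 (ramseyEquiv_of_small ℓ k _ hℓ hk (Nat.le_succ _))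

theorem pow_eight_le (L : ℕ) (hL : 80 ≤ L) : 2 ^ 21 * L ^ 8 ≤ 2 ^ L := by
  induction L, hL using Nat.le_induction with
  | base => norm_num
  | succ n hn ih =>
    have h1 : (n + 1) * 80 ≤ 81 * n := by omega
    have h2 : (n + 1) ^ 8 * 80 ^ 8 ≤ 2 * n ^ 8 * 80 ^ 8 := by
      calc (n + 1) ^ 8 * 80 ^ 8 = ((n + 1) * 80) ^ 8 := by rw [mul_pow]
        _ ≤ (81 * n) ^ 8 := Nat.pow_le_pow_left h1 8
        _ = 81 ^ 8 * n ^ 8 := by rw [mul_pow]
        _ ≤ (2 * 80 ^ 8) * n ^ 8 := Nat.mul_le_mul_right _ (by norm_num)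
        _ = 2 * n ^ 8 * 80 ^ 8 := by ring
    have h3 : (n + 1) ^ 8 ≤ 2 * n ^ 8 := Nat.le_of_mul_le_mul_right h2 (by norm_num)
    calc 2 ^ 21 * (n + 1) ^ 8 ≤ 2 ^ 21 * (2 * n ^ 8) := Nat.mul_le_mul_left _ h3
      _ = (2 ^ 21 * n ^ 8) * 2 := by ring
      _ ≤ 2 ^ n * 2 := Nat.mul_le_mul_right _ ih
      _ = 2 ^ (n + 1) := by rw [pow_succ]

/-- The lower bound in terms of `k` only. -/
theorem sq_le_gMax (k : ℕ) (hk : 2 ^ 80 ≤ k) :
    k ^ 2 ≤ 2 ^ 42 * (Nat.log 2 k) ^ 16 * gMax k := by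
  set L := Nat.log 2 k with hL
  have hk0 : k ≠ 0 := by
    intro h; rw [h] at hk; norm_num at hk
  have hL80 : 80 ≤ L := by
    rw [hL]; exact Nat.le_log_of_pow_le (by norm_num) hk
  have hLk : 2 ^ L ≤ k := Nat.pow_log_le_self 2 hk0
  have hd0 : 0 < 2 ^ 19 * L ^ 8 := by positivity
  set q := k / (2 ^ 19 * L ^ 8) with hq
  have hq4 : 4 ≤ q := by
    rw [hq, Nat.le_div_iff_mul_le hd0]
    calc 4 * (2 ^ 19 * L ^ 8) = 2 ^ 21 * L ^ 8 := by ring
      _ ≤ 2 ^ L := pow_eight_le L hL80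
      _ ≤ k := hLk
  have hqk : q ≤ k := Nat.div_le_self _ _
  set ℓ := Nat.log 2 q with hℓ
  have hℓL : ℓ ≤ L := Nat.log_mono_right hqk
  have hℓ2 : 2 ≤ ℓ := by
    rw [hℓ]; exact Nat.le_log_of_pow_le (by norm_num) (by norm_num; exact hq4)
  have hℓq : 2 ^ ℓ ≤ q := Nat.pow_log_le_self 2 (by omega)
  have hqlt : q < 2 ^ (ℓ + 1) := Nat.lt_pow_succ_log_self (by norm_num) q
  have hcond : 2 ^ 19 * ℓ ^ 8 * 2 ^ ℓ ≤ k := by
    calc 2 ^ 19 * ℓ ^ 8 * 2 ^ ℓ ≤ 2 ^ 19 * L ^ 8 * q := by gcongr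
      _ = q * (2 ^ 19 * L ^ 8) := by ring
      _ ≤ k := Nat.div_mul_le_self _ _
  have hmain := le_gMax ℓ k hℓ2 hcond
  have hklt : k < (q + 1) * (2 ^ 19 * L ^ 8) := by
    rw [← Nat.div_lt_iff_lt_mul hd0]
    exact Nat.lt_succ_self _
  have hk2 : k ≤ 2 ^ (ℓ + 1) * (2 ^ 19 * L ^ 8) :=
    hklt.le.trans (Nat.mul_le_mul_right _ hqlt)
  have h4 : 2 ^ (ℓ + 1) * 2 ^ (ℓ + 1) = 16 * 4 ^ (ℓ - 1) := by
    obtain ⟨n, hn⟩ : ∃ n, ℓ = n + 1 := ⟨ℓ - 1, by omega⟩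
    rw [hn, Nat.add_sub_cancel, show (4 : ℕ) = 2 * 2 by norm_num, mul_pow]
    ring
  calc k ^ 2 ≤ (2 ^ (ℓ + 1) * (2 ^ 19 * L ^ 8)) ^ 2 := Nat.pow_le_pow_left hk2 2
    _ = (2 ^ (ℓ + 1) * 2 ^ (ℓ + 1)) * (2 ^ 38 * L ^ 16) := by ring
    _ = 2 ^ 42 * L ^ 16 * 4 ^ (ℓ - 1) := by rw [h4]; ring
    _ ≤ 2 ^ 42 * L ^ 16 * gMax k := Nat.mul_le_mul_left _ hmain

end Pool.Agent.Lib.MP_e8016c
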